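import Pool.Agent.Helper75.SS.Irr2

/-!
# The splitting theorem
-/

namespace Pool.Agent.Helper75.SS

open LinearMap Pool.Agent.Helper66.OTR

set_option linter.unusedSectionVars false

variable {K V W : Type*} [Field K] [AddCommGroup V] [Module K V] [FiniteDimensional K V]
variable [AddCommGroup W] [Module K W] [FiniteDimensional K W]
variable [CharZero K] [IsAlgClosed K]

section

variable {ψ : LinearMap.BilinForm K V} (hnd : ψ.Nondegenerate) (halt : ∀ x, ψ x x = 0)
include hnd halt

/-- the symplectic Lie algebra is perfect -/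
lemma sp_perfect [Nontrivial V] {Q : Submodule K (Module.End K V)}
    (hQ : ∀ Z Z', Sp ψ Z → Sp ψ Z' → Z * Z' - Z' * Z ∈ Q) {Z : Module.End K V} (hZ : Sp ψ Z) :
    Z ∈ Q := by
  have hdiag : ∀ u, dot ψ u u ∈ Q := by
    intro u
    by_cases hu : u = 0
    · have : dot ψ u u = 0 := by
        rw [hu]; ext x; simp [dot_apply]
      rw [this]; exact Q.zero_mem
    obtain ⟨v, hv⟩ := exists_dual hnd halt hu
    have h1 := hQ _ _ (sp_dot halt u v) (sp_dot halt u u)
    have huu : ψ u u = 0 := halt u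
    rw [comm_dot (sp_dot halt u v), dot_apply, huu, zero_smul, zero_add, hv, one_smul,
      ← two_smul K] at h1
    have h2 := Q.smul_mem (2 : K)⁻¹ h1
    rwa [smul_smul, inv_mul_cancel₀ two_ne_zero, one_smul] at h2
  refine sp_ind hnd halt (fun u w => ?_) hZ
  have h1 := Q.sub_mem (Q.sub_mem (hdiag (u + w)) (hdiag u)) (hdiag w)
  rw [add_dot, dot_add, dot_add, dot_symm ψ w u] at h1
  have h2 := Q.smul_mem (2 : K)⁻¹ h1
  have h3 : (2 : K)⁻¹ • (dot ψ u u + dot ψ u w + (dot ψ u w + dot ψ w w) - dot ψ u u -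
      dot ψ w w) = dot ψ u w := by
    match_scalars <;> norm_num
  rwa [h3] at h2

/-- the symplectic Lie algebra is simple -/
lemma sp_simple [Nontrivial V] {J : Submodule K (Module.End K V)} (hJ : ∀ Z ∈ J, Sp ψ Z)
    (hid : ∀ Z ∈ J, ∀ Z', Sp ψ Z' → Z' * Z - Z * Z' ∈ J) {Z : Module.End K V} (hZ : Z ∈ J)
    (hZ0 : Z ≠ 0) {X : Module.End K V} (hX : Sp ψ X) : X ∈ J := by
  have hhalf : ∀ T : Module.End K V, T + T ∈ J → T ∈ J := fun T h => by
    rw [← two_smul K] at h
    have := J.smul_mem (2 : K)⁻¹ h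
    rwa [smul_smul, inv_mul_cancel₀ two_ne_zero, one_smul] at this
  have hZs := hJ Z hZ
  obtain ⟨v, hv⟩ : ∃ v, ψ v (Z v) ≠ 0 := by
    by_contra hcon
    push Not at hcon
    apply hZ0
    ext w
    rw [LinearMap.zero_apply]
    by_contra hw
    obtain ⟨v, hv⟩ := exists_dual hnd halt hw
    have h1 := hcon (v + w)
    simp only [map_add, LinearMap.add_apply, hcon, zero_add, add_zero] at h1
    have h2 : ψ w (Z v) = ψ v (Z w) := by
      rw [skew halt w (Z v), hZs v w, neg_neg]
    rw [h2, hv] at h1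
    norm_num at h1
  have hv0 : v ≠ 0 := by
    rintro rfl
    apply hv
    simp
  -- `v²` lies in `J`
  have hsv := sp_dot halt v v
  have hvv : dot ψ v v ∈ J := by
    have h1 := hid Z hZ _ hsv
    have h2 := comm_dot hZs v v
    rw [dot_symm ψ v (Z v)] at h2
    have h3 : dot ψ (Z v) v ∈ J := by
      refine hhalf _ ?_
      rw [← h2, ← neg_sub]
      exact J.neg_mem h1
    have h4 := hid _ h3 _ hsv
    have hvv0 : ψ v v = 0 := halt v
    have e1 : dot ψ v v (Z v) = (2 * ψ v (Z v)) • v := by rw [dot_apply]; module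
    have e2 : dot ψ v v v = (0 : K) • v := by rw [dot_apply, hvv0]; module
    rw [comm_dot hsv, e1, e2, smul_dot, dot_smul, zero_smul, add_zero] at h4
    have h5 := J.smul_mem (2 * ψ v (Z v))⁻¹ h4
    rwa [smul_smul, inv_mul_cancel₀ (mul_ne_zero two_ne_zero hv), one_smul] at h5
  obtain ⟨w, hw⟩ := exists_dual hnd halt hv0
  have huv : ∀ u, dot ψ u v ∈ J := by
    intro u
    have hT := T_sp (ψ := ψ) halt v w u
    have h1 := hid _ hvv _ hT
    rw [comm_dot hT, T_apply hw, dot_symm ψ v u] at h1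
    exact hhalf _ h1
  refine sp_ind hnd halt (fun u u' => ?_) hX
  have hT := T_sp (ψ := ψ) halt v w u'
  have h1 := hid _ (huv u) _ hT
  rw [comm_dot hT, T_apply hw] at h1
  have h2 := J.sub_mem h1 (huv (T ψ v w u' u))
  rwa [add_sub_cancel_left] at h2

end

/-- the restriction of `g` to a stable subspace -/
def res (g : Submodule K (Module.End K V × Module.End K W)) (U : Submodule K W) :
    Submodule K (Module.End K V × Module.End K U) where
  carrier := {Y | ∃ X ∈ g, X.1 = Y.1 ∧ ∀ u : U, (Y.2 u : W) = X.2 u}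
  zero_mem' := ⟨0, g.zero_mem, rfl, fun u => by simp⟩
  add_mem' := by
    rintro a b ⟨X, hX, h1, h2⟩ ⟨Y, hY, h3, h4⟩
    refine ⟨X + Y, g.add_mem hX hY, by rw [Prod.fst_add, Prod.fst_add, h1, h3], fun u => ?_⟩
    rw [Prod.snd_add, Prod.snd_add, LinearMap.add_apply, LinearMap.add_apply, Submodule.coe_add,
      h2, h4]
  smul_mem' := by
    rintro c a ⟨X, hX, h1, h2⟩
    refine ⟨c • X, g.smul_mem c hX, by rw [Prod.smul_fst, Prod.smul_fst, h1], fun u => ?_⟩
    rw [Prod.smul_snd, Prod.smul_snd, LinearMap.smul_apply, LinearMap.smul_apply,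
      Submodule.coe_smul, h2]

/-- stability under `g` -/
def Stab (g : Submodule K (Module.End K V × Module.End K W)) (U : Submodule K W) : Prop :=
  ∀ X ∈ g, ∀ u ∈ U, X.2 u ∈ U

/-- the restriction of one element -/
lemma exists_res {g : Submodule K (Module.End K V × Module.End K W)} {U : Submodule K W}
    (hU : Stab g U) {X : Module.End K V × Module.End K W} (hX : X ∈ g) :
    ∃ B : Module.End K U, ∀ u : U, (B u : W) = X.2 u :=
  ⟨X.2.restrict (fun u hu => hU X hX u hu), fun _ => rfl⟩

/-- the hypotheses of the theorem -/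
structure Hyp (ψ : LinearMap.BilinForm K V)
    (g : Submodule K (Module.End K V × Module.End K W)) : Prop where
  nd : ψ.Nondegenerate
  alt : ∀ x, ψ x x = 0
  closed : LC g
  gsp : ∀ X ∈ g, ∃ c : K, ∀ x y, ψ (X.1 x) y + ψ x (X.1 y) = c * ψ x y
  sur : ∀ Z, Sp ψ Z → ∃ X ∈ g, X.1 = Z
  gen : ∀ g' : Submodule K (Module.End K V × Module.End K W), LC g' →
    (∀ e ∈ g, e * e = e → e.1 ≠ 0 → e.1 ≠ 1 → e ∈ g') → g ≤ g'
  ss : ∀ U : Submodule K W, Stab g U → ∃ U', Stab g U' ∧ IsCompl U U'
  hom : ∀ φ : V →ₗ[K] W, (∀ X ∈ g, ∀ v, X.2 (φ v) = φ (X.1 v)) → φ = 0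

/-- the elements of the first factor which lift to elements of `g` killing `U` -/
def lifts (ψ : LinearMap.BilinForm K V) (g : Submodule K (Module.End K V × Module.End K W))
    (U : Submodule K W) : Submodule K (Module.End K V) where
  carrier := {Z | Sp ψ Z ∧ ∃ X ∈ g, X.1 = Z ∧ ∀ u ∈ U, X.2 u = 0}
  zero_mem' := ⟨(spm ψ).zero_mem, 0, g.zero_mem, rfl, fun u _ => rfl⟩
  add_mem' := by
    rintro a b ⟨ha, X, hX, h1, h2⟩ ⟨hb, Y, hY, h3, h4⟩
    refine ⟨ha.add hb, X + Y, g.add_mem hX hY, by rw [Prod.fst_add, h1, h3], fun u hu => ?_⟩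
    rw [Prod.snd_add, LinearMap.add_apply, h2 u hu, h4 u hu, add_zero]
  smul_mem' := by
    rintro c a ⟨ha, X, hX, h1, h2⟩
    refine ⟨ha.smul c, c • X, g.smul_mem c hX, by rw [Prod.smul_fst, h1], fun u hu => ?_⟩
    rw [Prod.smul_snd, LinearMap.smul_apply, h2 u hu, smul_zero]

namespace Hyp

variable {ψ : LinearMap.BilinForm K V} {g : Submodule K (Module.End K V × Module.End K W)}
variable (H : Hyp ψ g)
include H

/-- irreducible subspaces -/
lemma lifts_irr [Nontrivial V] {U : Submodule K W} (hU : Stab g U) (hU0 : U ≠ ⊥)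
    (hmin : ∀ U' ≤ U, Stab g U' → U' = ⊥ ∨ U' = U) {Z : Module.End K V} (hZ : Sp ψ Z) :
    Z ∈ lifts ψ g U := by
  by_cases hJ : ∃ Z₀ ∈ lifts ψ g U, Z₀ ≠ 0
  · obtain ⟨Z₀, hZ₀, hne⟩ := hJ
    refine sp_simple H.nd H.alt (J := lifts ψ g U) (fun Z hZ => hZ.1) ?_ hZ₀ hne hZ
    rintro Z ⟨hZ, X, hX, h1, h2⟩ Z' hZ'
    obtain ⟨X', hX', h3⟩ := H.sur Z' hZ'
    refine ⟨hZ'.comm hZ, X' * X - X * X', H.closed _ hX' _ hX, ?_, fun u hu => ?_⟩
    · rw [comm_pair, h1, h3]
    · rw [comm_pair]
      simp only [LinearMap.sub_apply, Module.End.mul_apply]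
      rw [h2 u hu, map_zero, h2 _ (hU X' hX' u hu), sub_zero]
  · exfalso
    push Not at hJ
    have hnt : Nontrivial U := Submodule.nontrivial_iff_ne_bot.2 hU0
    have P : Pair ψ (res g U) :=
      { nd := H.nd
        alt := H.alt
        closed := by
          rintro A ⟨X, hX, h1, h2⟩ B ⟨Y, hY, h3, h4⟩
          refine ⟨X * Y - Y * X, H.closed _ hX _ hY, ?_, fun u => ?_⟩
          · rw [comm_pair, comm_pair, h1, h3]
          · rw [comm_pair, comm_pair]
            simp only [LinearMap.sub_apply, Module.End.mul_apply, Submodule.coe_sub]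
            rw [h2, h4, h4, h2]
        gsp := by
          rintro A ⟨X, hX, h1, h2⟩
          rw [← h1]
          exact H.gsp X hX
        sur := by
          intro Z hZ
          obtain ⟨X, hX, h1⟩ := H.sur Z hZ
          obtain ⟨B, hB⟩ := exists_res hU hX
          exact ⟨(X.1, B), ⟨X, hX, rfl, hB⟩, h1⟩
        ntv := hnt
        irr := by
          intro N hN
          have h1 : Stab g (N.map U.subtype) := by
            rintro X hX _ ⟨u, hu, rfl⟩
            obtain ⟨B, hB⟩ := exists_res hU hX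
            refine ⟨B u, hN (X.1, B) ⟨X, hX, rfl, hB⟩ u hu, ?_⟩
            rw [Submodule.subtype_apply, Submodule.subtype_apply, hB]
          rcases hmin _ (Submodule.map_subtype_le U N) h1 with h2 | h2
          · left
            rw [Submodule.eq_bot_iff]
            intro u hu
            have h3 : U.subtype u ∈ N.map U.subtype := ⟨u, hu, rfl⟩
            rw [h2, Submodule.mem_bot] at h3
            exact U.injective_subtype h3
          · right
            apply Submodule.map_injective_of_injective U.injective_subtype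
            rw [h2, Submodule.map_top, Submodule.range_subtype]
        gen := by
          intro g' hg' hgen
          let g'' : Submodule K (Module.End K V × Module.End K W) :=
            { carrier := {X | X ∈ g ∧ ∃ B : Module.End K U, (∀ u : U, (B u : W) = X.2 u) ∧
                (X.1, B) ∈ g'}
              zero_mem' := ⟨g.zero_mem, 0, fun u => by simp, g'.zero_mem⟩
              add_mem' := by
                rintro X Y ⟨hX, A, hA, hA'⟩ ⟨hY, B, hB, hB'⟩
                refine ⟨g.add_mem hX hY, A + B, fun u => ?_, ?_⟩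
                · rw [LinearMap.add_apply, Submodule.coe_add, hA, hB, Prod.snd_add,
                    LinearMap.add_apply]
                · exact g'.add_mem hA' hB'
              smul_mem' := by
                rintro c X ⟨hX, A, hA, hA'⟩
                refine ⟨g.smul_mem c hX, c • A, fun u => ?_, ?_⟩
                · rw [LinearMap.smul_apply, Submodule.coe_smul, hA, Prod.smul_snd,
                    LinearMap.smul_apply]
                · exact g'.smul_mem c hA' }
          have h1 : g ≤ g'' := by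
            refine H.gen g'' ?_ ?_
            · rintro X ⟨hX, A, hA, hA'⟩ Y ⟨hY, B, hB, hB'⟩
              refine ⟨H.closed _ hX _ hY, A * B - B * A, fun u => ?_, ?_⟩
              · rw [comm_pair]
                simp only [LinearMap.sub_apply, Module.End.mul_apply, Submodule.coe_sub]
                rw [hA, hB, hB, hA]
              · exact hg' _ hA' _ hB'
            · intro e he hee h0 h1
              obtain ⟨B, hB⟩ := exists_res hU he
              refine ⟨he, B, hB, hgen _ ⟨e, he, rfl, hB⟩ ?_ h0 h1⟩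
              ext1
              · show e.1 * e.1 = e.1
                exact congrArg Prod.fst hee
              · ext u
                have ee2 : e.2 * e.2 = e.2 := congrArg Prod.snd hee
                have h2 := congrArg (fun f => f (u : W)) ee2
                simp only [Module.End.mul_apply] at h2
                show ((B * B) u : W) = B u
                rw [Module.End.mul_apply, hB, hB, h2]
          rintro A ⟨X, hX, h2, h3⟩
          obtain ⟨-, B, hB, hB'⟩ := h1 hX
          have h4 : A = (X.1, B) := by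
            ext1
            · exact h2.symm
            · ext u
              rw [h3, hB]
          rw [h4]; exact hB'
        J0 := by
          rintro Z hZ ⟨X, hX, h1, h2⟩
          refine hJ Z ⟨hZ, X, hX, h1, fun u hu => ?_⟩
          have := h2 ⟨u, hu⟩
          rw [← this]; rfl }
    obtain ⟨φ, hφ, hφ'⟩ := P.exists_hom
    apply hφ
    have h1 := H.hom (U.subtype ∘ₗ φ) (fun X hX v => by
      obtain ⟨B, hB⟩ := exists_res hU hX
      have h2 := hφ' (X.1, B) ⟨X, hX, rfl, hB⟩ v
      simp only at h2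
      rw [LinearMap.comp_apply, LinearMap.comp_apply, ← h2, Submodule.subtype_apply,
        Submodule.subtype_apply, hB])
    ext v
    have h2 := congrArg (fun f => f v) h1
    simpa using h2

/-- the induction -/
lemma lifts_all [Nontrivial V] : ∀ (n : ℕ) (U : Submodule K W), Stab g U →
    Module.finrank K U = n → ∀ Z, Sp ψ Z → Z ∈ lifts ψ g U := by
  intro n
  induction n using Nat.strong_induction_on with
  | _ n ih =>
    intro U hU hn Z hZ
    by_cases hU0 : U = ⊥
    · obtain ⟨X, hX, h1⟩ := H.sur Z hZ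
      refine ⟨hZ, X, hX, h1, fun u hu => ?_⟩
      rw [hU0, Submodule.mem_bot] at hu
      rw [hu, map_zero]
    -- a minimal stable subspace
    obtain ⟨W₀, ⟨hW₀, hW₀U, hW₀0⟩, hmin⟩ : ∃ W₀ : Submodule K W,
        (Stab g W₀ ∧ W₀ ≤ U ∧ W₀ ≠ ⊥) ∧ ∀ W₁ : Submodule K W, Stab g W₁ ∧ W₁ ≤ U ∧ W₁ ≠ ⊥ →
          Module.finrank K W₀ ≤ Module.finrank K W₁ := by
      have hne : {W₀ : Submodule K W | Stab g W₀ ∧ W₀ ≤ U ∧ W₀ ≠ ⊥}.Nonempty :=
        ⟨U, hU, le_rfl, hU0⟩
      obtain ⟨m, hm⟩ : ∃ m, IsLeast ((fun W₀ : Submodule K W => Module.finrank K W₀) ''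
          {W₀ : Submodule K W | Stab g W₀ ∧ W₀ ≤ U ∧ W₀ ≠ ⊥}) m :=
        ⟨_, WellFounded.min_mem wellFounded_lt _ (hne.image _),
          fun k hk => not_lt.1 (WellFounded.not_lt_min wellFounded_lt _ hk)⟩
      obtain ⟨⟨W₀, hW₀, h1⟩, h2⟩ := hm
      refine ⟨W₀, hW₀, fun W₁ hW₁ => ?_⟩
      have h3 := h2 ⟨W₁, hW₁, rfl⟩
      rw [← h1] at h3
      exact h3
    have hirr : ∀ U' ≤ W₀, Stab g U' → U' = ⊥ ∨ U' = W₀ := by
      intro U' hle hU'
      by_cases h : U' = ⊥
      · exact Or.inl h
      · right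
        exact Submodule.eq_of_le_of_finrank_le hle (hmin U' ⟨hU', hle.trans hW₀U, h⟩)
    obtain ⟨W₁, hW₁, hcompl⟩ := H.ss W₀ hW₀
    have hU1 : Stab g (U ⊓ W₁) := fun X hX u hu => ⟨hU X hX u hu.1, hW₁ X hX u hu.2⟩
    have hsup : W₀ ⊔ (U ⊓ W₁) = U := by
      rw [inf_comm, ← sup_inf_assoc_of_le W₁ hW₀U, hcompl.sup_eq_top, top_inf_eq]
    have hlt : Module.finrank K (U ⊓ W₁ : Submodule K W) < n := by
      rw [← hn]
      refine Submodule.finrank_lt_finrank_of_lt (lt_of_le_of_ne inf_le_left ?_)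
      intro h
      apply hW₀0
      have h1 : W₀ ≤ W₁ := by
        refine hW₀U.trans ?_
        rw [← h]; exact inf_le_right
      have h2 := hcompl.inf_eq_bot
      rwa [inf_eq_left.2 h1] at h2
    have hP1 := ih _ hlt (U ⊓ W₁) hU1 rfl
    have hP0 : ∀ Z, Sp ψ Z → Z ∈ lifts ψ g W₀ := fun Z hZ => H.lifts_irr hW₀ hW₀0 hirr hZ
    refine sp_perfect H.nd H.alt (fun Z Z' hZ hZ' => ?_) hZ
    obtain ⟨-, X, hX, h1, h2⟩ := hP0 Z hZ
    obtain ⟨-, X', hX', h3, h4⟩ := hP1 Z' hZ'
    refine ⟨hZ.comm hZ', X * X' - X' * X, H.closed _ hX _ hX', ?_, ?_⟩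
    · rw [comm_pair, h1, h3]
    · intro u hu
      rw [← hsup, Submodule.mem_sup] at hu
      obtain ⟨a, ha, b, hb, rfl⟩ := hu
      rw [comm_pair]
      simp only [LinearMap.sub_apply, Module.End.mul_apply, map_add]
      rw [h2 a ha, h4 b hb, h2 _ (hW₀ X' hX' a ha), h4 _ (hU1 X hX b hb)]
      simp

/-- **The splitting theorem.** -/
theorem splitting {Z : Module.End K V} (hZ : Sp ψ Z) : (Z, (0 : Module.End K W)) ∈ g := by
  rcases subsingleton_or_nontrivial V with hV | hV
  · have h1 : Z = 0 := Subsingleton.elim _ _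
    rw [h1]; exact g.zero_mem
  · obtain ⟨-, X, hX, h1, h2⟩ := H.lifts_all _ ⊤ (fun X _ u _ => trivial) rfl Z hZ
    have h3 : X = (Z, 0) := by
      ext1
      · exact h1
      · ext u
        exact h2 u trivial
    rw [← h3]; exact hX

end Hyp

end Pool.Agent.Helper75.SS
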