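import Pool.Agent.Helper66.OTR.Gsp

/-!
# Representations of the symplectic Lie algebra in which a Lagrangian idempotent has two
eigenvalues

`ρ` is a homomorphism from the symplectic Lie algebra of `(V, ψ)` to the endomorphisms of `W`, and
`p` is a projection of `V` onto a Lagrangian subspace along another one. We assume that
`ρ (a b) ρ (c d) = 0` for `a, b, c, d` in one and the same of these two subspaces, and construct
many equivariant maps from `V` to `W`.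
-/

namespace Pool.Agent.Helper75.SS

open LinearMap Pool.Agent.Helper66.OTR

set_option linter.unusedSectionVars false

variable {K V W : Type*} [Field K] [AddCommGroup V] [Module K V] [FiniteDimensional K V]
variable [AddCommGroup W] [Module K W]

/-- the symplectic Lie algebra -/
def Sp (ψ : LinearMap.BilinForm K V) (X : Module.End K V) : Prop :=
  ∀ x y, ψ (X x) y = - ψ x (X y)

/-- the symplectic Lie algebra as a subspace -/
def spm (ψ : LinearMap.BilinForm K V) : Submodule K (Module.End K V) where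
  carrier := {X | Sp ψ X}
  zero_mem' := by intro x y; simp
  add_mem' := by
    intro a b ha hb x y
    simp only [LinearMap.add_apply, map_add, ha x y, hb x y]; ring
  smul_mem' := by
    intro c a ha x y
    simp only [LinearMap.smul_apply, map_smul, ha x y, smul_eq_mul]; ring

variable {ψ : LinearMap.BilinForm K V}

lemma mem_spm {X : Module.End K V} : X ∈ spm ψ ↔ Sp ψ X := Iff.rfl

lemma skew (halt : ∀ x, ψ x x = 0) (x y : V) : ψ x y = - ψ y x := by
  have h := halt (x + y)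
  simp only [map_add, LinearMap.add_apply, halt] at h
  linear_combination h

lemma sp_dot (halt : ∀ x, ψ x x = 0) (u w : V) : Sp ψ (dot ψ u w) := by
  intro x y
  simp only [dot_apply, map_add, map_smul, LinearMap.add_apply, LinearMap.smul_apply, smul_eq_mul]
  rw [skew halt x u, skew halt x w]
  ring

lemma Sp.comm {X Y : Module.End K V} (hX : Sp ψ X) (hY : Sp ψ Y) : Sp ψ (X * Y - Y * X) := by
  intro x y
  simp only [LinearMap.sub_apply, Module.End.mul_apply, map_sub]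
  rw [hX, hY, hY, hX]
  ring

lemma Sp.add {X Y : Module.End K V} (hX : Sp ψ X) (hY : Sp ψ Y) : Sp ψ (X + Y) :=
  (spm ψ).add_mem hX hY

lemma Sp.sub {X Y : Module.End K V} (hX : Sp ψ X) (hY : Sp ψ Y) : Sp ψ (X - Y) :=
  (spm ψ).sub_mem hX hY

lemma Sp.smul {X : Module.End K V} (c : K) (hX : Sp ψ X) : Sp ψ (c • X) :=
  (spm ψ).smul_mem c hX

variable [CharZero K]

/-- an element of the symplectic Lie algebra which maps `v₀` to `v`, when `ψ w₀ v₀ = 1` -/
noncomputable def T (ψ : LinearMap.BilinForm K V) (v₀ w₀ : V) : V →ₗ[K] Module.End K V where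
  toFun v := dot ψ w₀ v - ((2 : K)⁻¹ * ψ v v₀) • dot ψ w₀ w₀
  map_add' := by
    intro a b
    rw [dot_add, map_add, LinearMap.add_apply]
    module
  map_smul' := by
    intro c a
    rw [dot_smul, map_smul, LinearMap.smul_apply, smul_eq_mul, RingHom.id_apply]
    module

lemma T_def (v₀ w₀ v : V) : T ψ v₀ w₀ v = dot ψ w₀ v - ((2 : K)⁻¹ * ψ v v₀) • dot ψ w₀ w₀ := rfl

lemma T_sp (halt : ∀ x, ψ x x = 0) (v₀ w₀ v : V) : Sp ψ (T ψ v₀ w₀ v) :=
  (sp_dot halt _ _).sub ((sp_dot halt _ _).smul _)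

lemma T_apply {v₀ w₀ : V} (h : ψ w₀ v₀ = 1) (v : V) : T ψ v₀ w₀ v v₀ = v := by
  rw [T_def, LinearMap.sub_apply, LinearMap.smul_apply, dot_apply, dot_apply, h]
  have h2 : (2 : K) ≠ 0 := two_ne_zero
  match_scalars
  · ring
  · field_simp
    ring

lemma exists_dual (hnd : ψ.Nondegenerate) (halt : ∀ x, ψ x x = 0) {v : V} (hv : v ≠ 0) :
    ∃ w, ψ w v = 1 := by
  obtain ⟨w, hw⟩ := exists_ne_of_nd hnd hv
  have hw' : ψ w v ≠ 0 := by rw [skew halt]; exact neg_ne_zero.2 hw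
  refine ⟨(ψ w v)⁻¹ • w, ?_⟩
  rw [map_smul, LinearMap.smul_apply, smul_eq_mul, inv_mul_cancel₀ hw']

lemma spm_setup [Nontrivial V] (hnd : ψ.Nondegenerate) (halt : ∀ x, ψ x x = 0) :
    Setup ψ (spm ψ) := by
  refine ⟨hnd, halt, fun X hX Y hY => Sp.comm hX hY, ⟨inferInstance, fun U hU => ?_⟩,
    fun X hX => hX⟩
  by_cases h : U = ⊥
  · exact Or.inl h
  · right
    obtain ⟨v, hv, hv0⟩ := (Submodule.ne_bot_iff U).1 h
    obtain ⟨w, hw⟩ := exists_dual hnd halt hv0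
    refine eq_top_iff.2 fun u _ => ?_
    rw [← T_apply hw u]
    exact hU _ (T_sp halt _ _ _) v hv

/-- the symplectic Lie algebra is spanned by the products -/
lemma sp_ind [Nontrivial V] (hnd : ψ.Nondegenerate) (halt : ∀ x, ψ x x = 0)
    {g : Submodule K (Module.End K V)} (h : ∀ u w, dot ψ u w ∈ g) {X : Module.End K V}
    (hX : Sp ψ X) : X ∈ g :=
  (spm_setup hnd halt).sp_le h hX

/-- the data -/
structure Act (ψ : LinearMap.BilinForm K V) (ρ : Module.End K V →ₗ[K] Module.End K W)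
    (p : Module.End K V) : Prop where
  nd : ψ.Nondegenerate
  alt : ∀ x, ψ x x = 0
  hom : ∀ X Y, Sp ψ X → Sp ψ Y → ρ (X * Y - Y * X) = ρ X * ρ Y - ρ Y * ρ X
  pp : ∀ x, p (p x) = p x
  l1 : ∀ u v, p u = u → p v = v → ψ u v = 0
  l2 : ∀ u v, p u = 0 → p v = 0 → ψ u v = 0
  z1 : ∀ a b c d, p a = a → p b = b → p c = c → p d = d →
    ρ (dot ψ a b) * ρ (dot ψ c d) = 0
  z2 : ∀ a b c d, p a = 0 → p b = 0 → p c = 0 → p d = 0 →
    ρ (dot ψ a b) * ρ (dot ψ c d) = 0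

namespace Act

variable {ρ : Module.End K V →ₗ[K] Module.End K W} {p : Module.End K V}

lemma swap (A : Act ψ ρ p) {X Y : Module.End K V} (hX : Sp ψ X) (hY : Sp ψ Y) :
    ρ X * ρ Y = ρ Y * ρ X + ρ (X * Y - Y * X) := by
  rw [A.hom X Y hX hY]; abel

lemma swap_dot (A : Act ψ ρ p) {X : Module.End K V} (hX : Sp ψ X) (u w : V) :
    ρ X * ρ (dot ψ u w) = ρ (dot ψ u w) * ρ X + (ρ (dot ψ (X u) w) + ρ (dot ψ u (X w))) := by
  rw [A.swap hX (sp_dot A.alt u w), comm_dot hX, map_add]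

/-- for `a` in the first Lagrangian there is `u` in the second which pairs nontrivially with it -/
lemma exists_l2 (A : Act ψ ρ p) {a : V} (ha : p a = a) (ha0 : a ≠ 0) :
    ∃ u, p u = 0 ∧ ψ u a = 1 := by
  obtain ⟨w, hw⟩ := exists_dual A.nd A.alt ha0
  refine ⟨w - p w, ?_, ?_⟩
  · rw [map_sub, A.pp, sub_self]
  · rw [map_sub, LinearMap.sub_apply, A.l1 (p w) a (A.pp w) ha, hw, sub_zero]

lemma exists_l1 (A : Act ψ ρ p) {b : V} (hb : p b = 0) (hb0 : b ≠ 0) :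
    ∃ u, p u = u ∧ ψ u b = 1 := by
  obtain ⟨w, hw⟩ := exists_dual A.nd A.alt hb0
  refine ⟨p w, A.pp w, ?_⟩
  have h1 := A.l2 (w - p w) b (by rw [map_sub, A.pp, sub_self]) hb
  rw [map_sub, LinearMap.sub_apply, sub_eq_zero] at h1
  rw [← h1, hw]

section

variable (A : Act ψ ρ p) {v₀ : V} (hv : p v₀ = v₀) (hv0 : v₀ ≠ 0)
include A hv

lemma n1a {a b : V} (ha : p a = a) (hb : p b = b) :
    ρ (dot ψ a b) * ρ (dot ψ v₀ v₀) = 0 := A.z1 _ _ _ _ ha hb hv hv

/-- elements which commute with the square of `v₀` -/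
lemma comm0 {X : Module.End K V} (hX : Sp ψ X) (h : X v₀ = 0) :
    ρ X * ρ (dot ψ v₀ v₀) = ρ (dot ψ v₀ v₀) * ρ X := by
  rw [A.swap_dot hX, h]
  have h0 : dot ψ (0 : V) v₀ = 0 := by
    have := smul_dot ψ (0 : K) v₀ 0
    rwa [zero_smul, zero_smul] at this
  rw [dot_symm ψ v₀ 0, h0, map_zero, add_zero, add_zero]

lemma n1b {a b : V} (ha : p a = a) (hb : p b = 0) (hbv : ψ b v₀ = 0) :
    ρ (dot ψ a b) * ρ (dot ψ v₀ v₀) = 0 := by
  -- first when `ψ b a` does not vanish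
  have key : ∀ a, p a = a → ψ b a ≠ 0 → ρ (dot ψ a b) * ρ (dot ψ v₀ v₀) = 0 := by
    intro a ha hba
    have hsb := sp_dot (ψ := ψ) A.alt b b
    have hb0 : dot ψ b b v₀ = 0 := by rw [dot_apply, hbv]; simp
    have h1 := A.swap_dot hsb a a
    have h2 : ρ (dot ψ b b) * ρ (dot ψ a a) * ρ (dot ψ v₀ v₀) = 0 := by
      rw [mul_assoc, A.n1a hv ha ha, mul_zero]
    have h3 : ρ (dot ψ a a) * ρ (dot ψ b b) * ρ (dot ψ v₀ v₀) = 0 := by
      rw [mul_assoc, A.comm0 hv hsb hb0, ← mul_assoc, A.n1a hv ha ha, zero_mul]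
    rw [h1, add_mul, h3, zero_add] at h2
    have e1 : dot ψ b b a = (2 * ψ b a) • b := by rw [dot_apply]; module
    rw [e1, smul_dot, dot_smul, dot_symm ψ b a, map_smul, ← two_smul K, smul_smul,
      smul_mul_assoc] at h2
    rcases smul_eq_zero.1 h2 with h4 | h4
    · exfalso
      have : (2 : K) ≠ 0 := two_ne_zero
      apply hba
      rcases mul_eq_zero.1 h4 with h5 | h5
      · exact absurd h5 this
      · rcases mul_eq_zero.1 h5 with h6 | h6
        · exact absurd h6 this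
        · exact h6
    · exact h4
  by_cases hba : ψ b a = 0
  · by_cases hb0 : b = 0
    · have h0 : dot ψ a (0 : V) = 0 := by
        have := dot_smul ψ (0 : K) a 0
        rwa [zero_smul, zero_smul] at this
      rw [hb0, h0, map_zero, zero_mul]
    · obtain ⟨u, hu, hub⟩ := A.exists_l1 hb hb0
      have hbu : ψ b u ≠ 0 := by rw [skew A.alt, hub]; norm_num
      have h1 := key u hu hbu
      have h2 := key (a + u) (by rw [map_add, ha, hu]) (by rw [map_add, hba, zero_add]; exact hbu)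
      rw [add_dot, map_add, add_mul, h1, add_zero] at h2
      exact h2
  · exact key a ha hba

lemma n1c' {b : V} (hb : p b = 0) (hbv : ψ b v₀ = 0) :
    ρ (dot ψ b b) * ρ (dot ψ v₀ v₀) = 0 := by
  by_cases hb0 : b = 0
  · have h0 : dot ψ (0 : V) (0 : V) = 0 := by
      have := dot_smul ψ (0 : K) (0 : V) 0
      rwa [zero_smul, zero_smul] at this
    rw [hb0, h0, map_zero, zero_mul]
  obtain ⟨a, ha, hab⟩ := A.exists_l1 hb hb0
  have hba : ψ b a = -1 := by rw [skew A.alt, hab]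
  have hsb := sp_dot (ψ := ψ) A.alt b b
  have hbv0 : dot ψ b b v₀ = 0 := by rw [dot_apply, hbv]; simp
  have hbb : ψ b b = 0 := A.alt b
  have h1 := A.swap_dot hsb a b
  have h2 : ρ (dot ψ b b) * ρ (dot ψ a b) * ρ (dot ψ v₀ v₀) = 0 := by
    rw [mul_assoc, A.n1b hv ha hb hbv, mul_zero]
  have h3 : ρ (dot ψ a b) * ρ (dot ψ b b) * ρ (dot ψ v₀ v₀) = 0 := by
    rw [mul_assoc, A.comm0 hv hsb hbv0, ← mul_assoc, A.n1b hv ha hb hbv, zero_mul]
  rw [h1, add_mul, h3, zero_add] at h2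
  have e1 : dot ψ b b a = (-2 : K) • b := by rw [dot_apply, hba]; module
  have e2 : dot ψ b b b = (0 : K) • b := by rw [dot_apply, hbb]; module
  rw [e1, e2, smul_dot, dot_smul, zero_smul, map_zero, add_zero, map_smul, smul_mul_assoc] at h2
  rcases smul_eq_zero.1 h2 with h4 | h4
  · norm_num at h4
  · exact h4

lemma n1c {b c : V} (hb : p b = 0) (hbv : ψ b v₀ = 0) (hc : p c = 0) (hcv : ψ c v₀ = 0) :
    ρ (dot ψ b c) * ρ (dot ψ v₀ v₀) = 0 := by
  have h1 := A.n1c' hv hb hbv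
  have h2 := A.n1c' hv hc hcv
  have h3 := A.n1c' hv (b := b + c) (by rw [map_add, hb, hc, add_zero])
    (by rw [map_add, LinearMap.add_apply, hbv, hcv, add_zero])
  rw [add_dot, dot_add, dot_add, map_add, map_add, map_add, add_mul, add_mul, add_mul, h1, h2,
    dot_symm ψ c b, zero_add, add_zero, ← two_smul K] at h3
  rcases smul_eq_zero.1 h3 with h4 | h4
  · norm_num at h4
  · exact h4

lemma n1 {a b : V} (ha : ψ a v₀ = 0) (hb : ψ b v₀ = 0) :
    ρ (dot ψ a b) * ρ (dot ψ v₀ v₀) = 0 := by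
  have hpa : ∀ a, ψ a v₀ = 0 → ψ (a - p a) v₀ = 0 := by
    intro a ha
    rw [map_sub, LinearMap.sub_apply, A.l1 (p a) v₀ (A.pp a) hv, ha, sub_zero]
  have hq : ∀ a, p (a - p a) = 0 := fun a => by rw [map_sub, A.pp, sub_self]
  have e : dot ψ a b = dot ψ (p a) (p b) + dot ψ (p a) (b - p b) + dot ψ (p b) (a - p a) +
      dot ψ (a - p a) (b - p b) := by
    rw [dot_symm ψ (p b) (a - p a)]
    conv_lhs => rw [← sub_add_cancel a (p a), ← sub_add_cancel b (p b)]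
    rw [add_dot, dot_add, dot_add]
    abel
  rw [e]
  simp only [map_add, add_mul]
  rw [A.n1a hv (A.pp a) (A.pp b), A.n1b hv (A.pp a) (hq b) (hpa b hb),
    A.n1b hv (A.pp b) (hq a) (hpa a ha), A.n1c hv (hq a) (hpa a ha) (hq b) (hpa b hb)]
  simp

/-- `h E = E` -/
lemma hE {w₀ : V} (hw : ψ w₀ v₀ = 1) :
    ρ (dot ψ w₀ v₀) * ρ (dot ψ v₀ v₀) = ρ (dot ψ v₀ v₀) := by
  have hvw : ψ v₀ w₀ = -1 := by rw [skew A.alt, hw]
  have hEE : ρ (dot ψ v₀ v₀) * ρ (dot ψ v₀ v₀) = 0 := A.n1a hv hv hv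
  have hvv : ψ v₀ v₀ = 0 := A.alt v₀
  -- `[E, F] = -4 H`
  have h1 := A.swap_dot (sp_dot (ψ := ψ) A.alt v₀ v₀) w₀ w₀
  have e1 : dot ψ v₀ v₀ w₀ = (-2 : K) • v₀ := by rw [dot_apply, hvw]; module
  rw [e1, smul_dot, dot_smul, dot_symm ψ v₀ w₀, map_smul] at h1
  -- `[H, E] = 2 E`
  have h2 := A.swap_dot (sp_dot (ψ := ψ) A.alt w₀ v₀) v₀ v₀
  have e2 : dot ψ w₀ v₀ v₀ = v₀ := by rw [dot_apply, hw, hvv]; module
  rw [e2] at h2
  generalize ρ (dot ψ v₀ v₀) = E at *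
  generalize ρ (dot ψ w₀ w₀) = F at *
  generalize ρ (dot ψ w₀ v₀) = H at *
  have h3 : E * F * E = E * (F * E) := mul_assoc _ _ _
  -- multiply `E F = F E - 4 H` by `E` on both sides
  have h4 : E * (E * F) = E * F * E + E * ((-2 : K) • H + (-2 : K) • H) := by
    rw [h1, mul_add, ← mul_assoc, ← h1]
  have h5 : E * F * E = F * E * E + ((-2 : K) • H + (-2 : K) • H) * E := by
    conv_lhs => rw [h1]
    rw [add_mul]
  rw [← mul_assoc, hEE, zero_mul] at h4
  rw [mul_assoc F, hEE, mul_zero, zero_add] at h5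
  have h6 : E * H = - (H * E) := by
    have h7 : (-4 : K) • (H * E) + (-4 : K) • (E * H) = 0 := by
      have e3 : ((-2 : K) • H + (-2 : K) • H) * E = (-4 : K) • (H * E) := by
        rw [add_mul, smul_mul_assoc]; module
      have e4 : E * ((-2 : K) • H + (-2 : K) • H) = (-4 : K) • (E * H) := by
        rw [mul_add, mul_smul_comm]; module
      rw [← e3, ← e4, ← h5]
      exact h4.symm
    rw [← smul_add] at h7
    rcases smul_eq_zero.1 h7 with h8 | h8
    · norm_num at h8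
    · exact eq_neg_of_add_eq_zero_right h8
  rw [h6] at h2
  have h8 : (2 : K) • (H * E) = (2 : K) • E := by
    have : H * E + H * E = E + E := by
      rw [← sub_eq_zero] at h2 ⊢
      rw [← h2]; abel
    rw [two_smul, two_smul]; exact this
  exact smul_right_injective _ (two_ne_zero (α := K)) h8

end

/-- the map `f` -/
noncomputable def f (ψ : LinearMap.BilinForm K V) (ρ : Module.End K V →ₗ[K] Module.End K W)
    (v₀ w₀ : V) : V →ₗ[K] Module.End K W :=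
  (LinearMap.mulRight K (ρ (dot ψ v₀ v₀))) ∘ₗ (ρ ∘ₗ T ψ v₀ w₀)

lemma f_def (v₀ w₀ v : V) : f ψ ρ v₀ w₀ v = ρ (T ψ v₀ w₀ v) * ρ (dot ψ v₀ v₀) := rfl

section

variable (A : Act ψ ρ p) {v₀ w₀ : V} (hv : p v₀ = v₀) (hw : ψ w₀ v₀ = 1)
include A hv hw

lemma f_self : f ψ ρ v₀ w₀ v₀ = ρ (dot ψ v₀ v₀) := by
  have hvv : ψ v₀ v₀ = 0 := A.alt v₀
  rw [f_def, T_def, hvv, mul_zero, zero_smul, sub_zero, A.hE hv hw]

lemma rho_E [Nontrivial V] {X : Module.End K V} (hX : Sp ψ X) :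
    ρ X * ρ (dot ψ v₀ v₀) = f ψ ρ v₀ w₀ (X v₀) := by
  let g : Submodule K (Module.End K V) := LinearMap.ker
    ((LinearMap.mulRight K (ρ (dot ψ v₀ v₀))) ∘ₗ ρ - f ψ ρ v₀ w₀ ∘ₗ LinearMap.applyₗ v₀)
  have hg : ∀ X, X ∈ g ↔ ρ X * ρ (dot ψ v₀ v₀) = f ψ ρ v₀ w₀ (X v₀) := by
    intro X
    rw [LinearMap.mem_ker, LinearMap.sub_apply, sub_eq_zero]
    rfl
  refine (hg X).1 (sp_ind A.nd A.alt (fun a b => (hg _).2 ?_) hX)
  set α := ψ a v₀ with hα
  set β := ψ b v₀ with hβ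
  have ha : ψ (a - α • w₀) v₀ = 0 := by
    rw [map_sub, LinearMap.sub_apply, map_smul, LinearMap.smul_apply, hw, smul_eq_mul, mul_one,
      hα, sub_self]
  have hb : ψ (b - β • w₀) v₀ = 0 := by
    rw [map_sub, LinearMap.sub_apply, map_smul, LinearMap.smul_apply, hw, smul_eq_mul, mul_one,
      hβ, sub_self]
  have h1 := A.n1 hv ha hb
  have e1 : dot ψ a b v₀ = α • b + β • a := dot_apply _ _ _ _
  have e2 : dot ψ (a - α • w₀) (b - β • w₀) = dot ψ a b - β • dot ψ w₀ a - α • dot ψ w₀ b +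
      (α * β) • dot ψ w₀ w₀ := by
    ext x
    simp only [dot_apply, LinearMap.sub_apply, LinearMap.add_apply, LinearMap.smul_apply, map_sub,
      map_smul, smul_eq_mul]
    module
  have e3 : T ψ v₀ w₀ (α • b + β • a) = β • dot ψ w₀ a + α • dot ψ w₀ b -
      (α * β) • dot ψ w₀ w₀ := by
    have h2 : (2 : K) ≠ 0 := two_ne_zero
    rw [T_def, dot_add, dot_smul, dot_smul, map_add, map_smul, map_smul, LinearMap.add_apply,
      LinearMap.smul_apply, LinearMap.smul_apply, ← hα, ← hβ, smul_eq_mul, smul_eq_mul]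
    match_scalars
    · ring
    · ring
    · field_simp
      ring
  rw [e1, f_def, e3, ← sub_eq_zero, ← sub_mul, ← map_sub]
  rw [e2] at h1
  convert h1 using 3
  abel

lemma rho_f_of_zero [Nontrivial V] {z : Module.End K V} (hz : Sp ψ z) (hz0 : z v₀ = 0) (v : V) :
    ρ z * f ψ ρ v₀ w₀ v = f ψ ρ v₀ w₀ (z v) := by
  have hT := T_sp (ψ := ψ) A.alt v₀ w₀ v
  rw [f_def, ← mul_assoc, A.swap hz hT, add_mul, mul_assoc, A.rho_E hv hw hz, hz0, map_zero,
    mul_zero, zero_add, A.rho_E hv hw (hz.comm hT), LinearMap.sub_apply, Module.End.mul_apply,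
    Module.End.mul_apply, T_apply hw, hz0, map_zero, sub_zero]

end

/-- the defect -/
noncomputable def D (ψ : LinearMap.BilinForm K V) (ρ : Module.End K V →ₗ[K] Module.End K W)
    (v₀ w₀ : V) (u v : V) : Module.End K W :=
  ρ (T ψ v₀ w₀ u) * ρ (T ψ v₀ w₀ v) * ρ (dot ψ v₀ v₀) - f ψ ρ v₀ w₀ (T ψ v₀ w₀ u v)

lemma D_def (v₀ w₀ u v : V) : D ψ ρ v₀ w₀ u v =
  ρ (T ψ v₀ w₀ u) * ρ (T ψ v₀ w₀ v) * ρ (dot ψ v₀ v₀) - f ψ ρ v₀ w₀ (T ψ v₀ w₀ u v) := rfl

lemma D_add_left (v₀ w₀ u u' v : V) :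
    D ψ ρ v₀ w₀ (u + u') v = D ψ ρ v₀ w₀ u v + D ψ ρ v₀ w₀ u' v := by
  simp only [D_def, map_add, add_mul, LinearMap.add_apply]; abel

lemma D_add_right (v₀ w₀ u v v' : V) :
    D ψ ρ v₀ w₀ u (v + v') = D ψ ρ v₀ w₀ u v + D ψ ρ v₀ w₀ u v' := by
  simp only [D_def, map_add, add_mul, mul_add]; abel

lemma D_smul_left (v₀ w₀ : V) (c : K) (u v : V) :
    D ψ ρ v₀ w₀ (c • u) v = c • D ψ ρ v₀ w₀ u v := by
  simp only [D_def, map_smul, smul_mul_assoc, LinearMap.smul_apply, smul_sub]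

lemma D_smul_right (v₀ w₀ : V) (c : K) (u v : V) :
    D ψ ρ v₀ w₀ u (c • v) = c • D ψ ρ v₀ w₀ u v := by
  simp only [D_def, map_smul, smul_mul_assoc, mul_smul_comm, smul_sub]

section

variable [Nontrivial V] (A : Act ψ ρ p) {v₀ w₀ : V} (hv : p v₀ = v₀) (hw : ψ w₀ v₀ = 1)
include A hv hw

lemma D_gen {Y X : Module.End K V} (hY : Sp ψ Y) (hX : Sp ψ X) :
    ρ Y * ρ X * ρ (dot ψ v₀ v₀) = f ψ ρ v₀ w₀ (Y (X v₀)) + D ψ ρ v₀ w₀ (X v₀) (Y v₀) := by
  have hTx := T_sp (ψ := ψ) A.alt v₀ w₀ (X v₀)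
  have h1 : ρ Y * ρ X * ρ (dot ψ v₀ v₀) = ρ Y * ρ (T ψ v₀ w₀ (X v₀)) * ρ (dot ψ v₀ v₀) := by
    rw [mul_assoc, A.rho_E hv hw hX, f_def, mul_assoc]
  rw [h1, A.swap hY hTx, add_mul, mul_assoc, A.rho_E hv hw hY, f_def, A.rho_E hv hw (hY.comm hTx),
    D_def, LinearMap.sub_apply, Module.End.mul_apply, Module.End.mul_apply, T_apply hw, map_sub,
    mul_assoc (ρ (T ψ v₀ w₀ (X v₀)))]
  abel

lemma D_symm (u v : V) : D ψ ρ v₀ w₀ u v = D ψ ρ v₀ w₀ v u := by
  have hu := T_sp (ψ := ψ) A.alt v₀ w₀ u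
  have hv' := T_sp (ψ := ψ) A.alt v₀ w₀ v
  have h1 := A.D_gen hv hw hu hv'
  rw [T_apply hw, T_apply hw] at h1
  have h2 := D_def (ψ := ψ) (ρ := ρ) v₀ w₀ u v
  rw [h1] at h2
  rw [h2]
  abel

lemma D_gen' {Y X : Module.End K V} (hY : Sp ψ Y) (hX : Sp ψ X) :
    ρ Y * ρ X * ρ (dot ψ v₀ v₀) = f ψ ρ v₀ w₀ (Y (X v₀)) + D ψ ρ v₀ w₀ (Y v₀) (X v₀) := by
  rw [A.D_symm hv hw (Y v₀), A.D_gen hv hw hY hX]

lemma D_equiv {z : Module.End K V} (hz : Sp ψ z) (hz0 : z v₀ = 0) (u v : V) :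
    ρ z * D ψ ρ v₀ w₀ u v = D ψ ρ v₀ w₀ (z u) v + D ψ ρ v₀ w₀ u (z v) := by
  have hu := T_sp (ψ := ψ) A.alt v₀ w₀ u
  have hv' := T_sp (ψ := ψ) A.alt v₀ w₀ v
  have h1 := A.D_gen' hv hw (hz.comm hu) hv'
  have h2 := A.D_gen' hv hw hu (hz.comm hv')
  have ez : ∀ x, (z * T ψ v₀ w₀ x - T ψ v₀ w₀ x * z) v₀ = z x := fun x => by
    rw [LinearMap.sub_apply, Module.End.mul_apply, Module.End.mul_apply, T_apply hw, hz0, map_zero,
      sub_zero]
  rw [ez, T_apply hw] at h1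
  rw [ez, T_apply hw] at h2
  have h3 : ρ z * (ρ (T ψ v₀ w₀ u) * ρ (T ψ v₀ w₀ v) * ρ (dot ψ v₀ v₀)) =
      ρ (z * T ψ v₀ w₀ u - T ψ v₀ w₀ u * z) * ρ (T ψ v₀ w₀ v) * ρ (dot ψ v₀ v₀) +
      ρ (T ψ v₀ w₀ u) * ρ (z * T ψ v₀ w₀ v - T ψ v₀ w₀ v * z) * ρ (dot ψ v₀ v₀) := by
    rw [A.hom z _ hz hu, A.hom z _ hz hv']
    have h4 : ρ z * ρ (dot ψ v₀ v₀) = 0 := by rw [A.rho_E hv hw hz, hz0, map_zero]
    have h5 : ρ (T ψ v₀ w₀ u) * ρ (T ψ v₀ w₀ v) * ρ z * ρ (dot ψ v₀ v₀) = 0 := by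
      rw [mul_assoc, h4, mul_zero]
    have h6 : ρ z * (ρ (T ψ v₀ w₀ u) * ρ (T ψ v₀ w₀ v) * ρ (dot ψ v₀ v₀)) =
        ρ z * (ρ (T ψ v₀ w₀ u) * ρ (T ψ v₀ w₀ v) * ρ (dot ψ v₀ v₀)) -
        ρ (T ψ v₀ w₀ u) * ρ (T ψ v₀ w₀ v) * ρ z * ρ (dot ψ v₀ v₀) := by rw [h5, sub_zero]
    rw [h6]
    noncomm_ring
  rw [D_def, mul_sub, h3, h1, h2, A.rho_f_of_zero hv hw hz hz0, LinearMap.sub_apply,
    Module.End.mul_apply, Module.End.mul_apply, map_sub]
  abel

/-- on the second Lagrangian, the defect of `(u, u)` vanishes if `ψ u v₀` does not -/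
lemma D_one {u : V} (hu : p u = 0) (huv : ψ u v₀ ≠ 0) : D ψ ρ v₀ w₀ u u = 0 := by
  have huu : ψ u u = 0 := A.alt u
  have hs := sp_dot (ψ := ψ) A.alt u u
  have h1 := A.D_gen hv hw hs hs
  have e1 : dot ψ u u v₀ = (2 * ψ u v₀) • u := by rw [dot_apply]; module
  have e2 : dot ψ u u u = 0 := by rw [dot_apply, huu]; simp
  rw [A.z2 _ _ _ _ hu hu hu hu, zero_mul, e1, map_smul, e2, smul_zero, map_zero, zero_add,
    D_smul_left, D_smul_right, smul_smul] at h1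
  rcases smul_eq_zero.1 h1.symm with h2 | h2
  · exfalso
    have h3 : (2 : K) * ψ u v₀ ≠ 0 := mul_ne_zero two_ne_zero huv
    exact (mul_ne_zero h3 h3) h2
  · exact h2

lemma D_two (hw0 : p w₀ = 0) {u v : V} (hu : p u = 0) (hv' : p v = 0) :
    D ψ ρ v₀ w₀ u v = 0 := by
  have h0 : D ψ ρ v₀ w₀ w₀ w₀ = 0 := A.D_one hv hw hw0 (by rw [hw]; exact one_ne_zero)
  have key : ∀ u, p u = 0 → D ψ ρ v₀ w₀ u u = 0 := by
    intro u hu
    by_cases huv : ψ u v₀ = 0
    · have h1 := A.D_one hv hw (u := u + w₀) (by rw [map_add, hu, hw0, add_zero])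
        (by rw [map_add, LinearMap.add_apply, huv, hw, zero_add]; exact one_ne_zero)
      have h2 := A.D_one hv hw (u := u + (-1 : K) • w₀)
        (by rw [map_add, map_smul, hu, hw0, smul_zero, add_zero])
        (by rw [map_add, LinearMap.add_apply, huv, map_smul, LinearMap.smul_apply, hw, zero_add]
            simp)
      simp only [D_add_left, D_add_right, D_smul_left, D_smul_right, h0, smul_zero,
        add_zero] at h1 h2
      have h3 : (2 : K) • D ψ ρ v₀ w₀ u u = 0 := by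
        have := congrArg₂ (fun a b => a + b) h1 h2
        simp only [add_zero] at this
        rw [← this]
        module
      rcases smul_eq_zero.1 h3 with h4 | h4
      · norm_num at h4
      · exact h4
    · exact A.D_one hv hw hu huv
  have h1 := key (u + v) (by rw [map_add, hu, hv', add_zero])
  rw [D_add_left, D_add_right, D_add_right, key u hu, key v hv', zero_add, add_zero,
    A.D_symm hv hw v u, ← two_smul K] at h1
  rcases smul_eq_zero.1 h1 with h4 | h4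
  · norm_num at h4
  · exact h4

lemma D_three (hw0 : p w₀ = 0) {a u : V} (ha : p a = a) (hu : p u = 0) :
    D ψ ρ v₀ w₀ a u = 0 := by
  have hz := sp_dot (ψ := ψ) A.alt a a
  have hav : ψ a v₀ = 0 := A.l1 _ _ ha hv
  have hz0 : dot ψ a a v₀ = 0 := by rw [dot_apply, hav]; simp
  have key : ∀ u, p u = 0 → ψ a u ≠ 0 → D ψ ρ v₀ w₀ a u = 0 := by
    intro u hu hau
    have h1 := A.D_equiv hv hw hz hz0 u u
    have e1 : dot ψ a a u = (2 * ψ a u) • a := by rw [dot_apply]; module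
    rw [A.D_two hv hw hw0 hu hu, mul_zero, e1, D_smul_left, D_smul_right, A.D_symm hv hw u a,
      ← two_smul K, smul_smul] at h1
    rcases smul_eq_zero.1 h1.symm with h2 | h2
    · exact absurd h2 (mul_ne_zero two_ne_zero (mul_ne_zero two_ne_zero hau))
    · exact h2
  by_cases ha0 : a = 0
  · have := D_smul_left (ψ := ψ) (ρ := ρ) v₀ w₀ (0 : K) a u
    rw [zero_smul, zero_smul] at this
    rw [ha0, this]
  by_cases hau : ψ a u = 0
  · obtain ⟨u', hu', hu'a⟩ := A.exists_l2 ha ha0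
    have hau' : ψ a u' ≠ 0 := by rw [skew A.alt, hu'a]; norm_num
    have h1 := key u' hu' hau'
    have h2 := key (u + u') (by rw [map_add, hu, hu', add_zero])
      (by rw [map_add, hau, zero_add]; exact hau')
    rwa [D_add_right, h1, add_zero] at h2
  · exact key u hu hau

lemma D_four (hw0 : p w₀ = 0) {a b : V} (ha : p a = a) (hb : p b = b) :
    D ψ ρ v₀ w₀ a b = 0 := by
  have key : ∀ a, p a = a → D ψ ρ v₀ w₀ a a = 0 := by
    intro a ha
    by_cases ha0 : a = 0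
    · have := D_smul_left (ψ := ψ) (ρ := ρ) v₀ w₀ (0 : K) a a
      rw [zero_smul, zero_smul] at this
      rw [ha0] at this ⊢
      exact this
    have hz := sp_dot (ψ := ψ) A.alt a a
    have hav : ψ a v₀ = 0 := A.l1 _ _ ha hv
    have hz0 : dot ψ a a v₀ = 0 := by rw [dot_apply, hav]; simp
    obtain ⟨u, hu, hua⟩ := A.exists_l2 ha ha0
    have hau : ψ a u = -1 := by rw [skew A.alt, hua]
    have haa : ψ a a = 0 := A.alt a
    have h1 := A.D_equiv hv hw hz hz0 a u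
    have e1 : dot ψ a a u = (-2 : K) • a := by rw [dot_apply, hau]; module
    have e2 : dot ψ a a a = (0 : K) • a := by rw [dot_apply, haa]; module
    rw [A.D_three hv hw hw0 ha hu, mul_zero, e1, e2, D_smul_left, D_smul_right, zero_smul,
      zero_add] at h1
    rcases smul_eq_zero.1 h1.symm with h2 | h2
    · norm_num at h2
    · exact h2
  have h1 := key (a + b) (by rw [map_add, ha, hb])
  rw [D_add_left, D_add_right, D_add_right, key a ha, key b hb, zero_add, add_zero,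
    A.D_symm hv hw b a, ← two_smul K] at h1
  rcases smul_eq_zero.1 h1 with h4 | h4
  · norm_num at h4
  · exact h4

lemma D_zero (hw0 : p w₀ = 0) (u v : V) : D ψ ρ v₀ w₀ u v = 0 := by
  have hq : ∀ a, p (a - p a) = 0 := fun a => by rw [map_sub, A.pp, sub_self]
  rw [← sub_add_cancel u (p u), ← sub_add_cancel v (p v), D_add_left, D_add_right, D_add_right,
    A.D_two hv hw hw0 (hq u) (hq v), A.D_three hv hw hw0 (A.pp u) (hq v),
    A.D_four hv hw hw0 (A.pp u) (A.pp v), A.D_symm hv hw, A.D_three hv hw hw0 (A.pp v) (hq u)]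
  simp

end

/-- **The equivariant map.** -/
theorem exists_equiv [Nontrivial V] (A : Act ψ ρ p) {v₀ : V} (hv : p v₀ = v₀) (hv0 : v₀ ≠ 0) :
    ∃ f : V →ₗ[K] Module.End K W, f v₀ = ρ (dot ψ v₀ v₀) ∧
      ∀ Y, Sp ψ Y → ∀ v, ρ Y * f v = f (Y v) := by
  obtain ⟨w₀, hw0, hw⟩ := A.exists_l2 hv hv0
  refine ⟨f ψ ρ v₀ w₀, A.f_self hv hw, fun Y hY v => ?_⟩
  have h1 := A.D_gen hv hw hY (T_sp (ψ := ψ) A.alt v₀ w₀ v)
  rw [T_apply hw, A.D_zero hv hw hw0, add_zero] at h1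
  rw [f_def, ← mul_assoc, h1]

end Act

end Pool.Agent.Helper75.SS
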