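import Pool.Agent.Helper75.SS.Ortho

/-!
# The irreducible case
-/

namespace Pool.Agent.Helper75.SS

open LinearMap Pool.Agent.Helper66.OTR

set_option linter.unusedSectionVars false

variable {K V W : Type*} [Field K] [AddCommGroup V] [Module K V] [FiniteDimensional K V]
variable [AddCommGroup W] [Module K W] [FiniteDimensional K W]
variable [CharZero K] [IsAlgClosed K]

/-- closed under commutators -/
def LC (g : Submodule K (Module.End K V × Module.End K W)) : Prop :=
  ∀ X ∈ g, ∀ Y ∈ g, X * Y - Y * X ∈ g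

/-- the data -/
structure Pair (ψ : LinearMap.BilinForm K V)
    (g : Submodule K (Module.End K V × Module.End K W)) : Prop where
  nd : ψ.Nondegenerate
  alt : ∀ x, ψ x x = 0
  closed : LC g
  gsp : ∀ X ∈ g, ∃ c : K, ∀ x y, ψ (X.1 x) y + ψ x (X.1 y) = c * ψ x y
  sur : ∀ Z, Sp ψ Z → ∃ X ∈ g, X.1 = Z
  ntv : Nontrivial W
  irr : ∀ U : Submodule K W, (∀ X ∈ g, ∀ w ∈ U, X.2 w ∈ U) → U = ⊥ ∨ U = ⊤
  gen : ∀ g' : Submodule K (Module.End K V × Module.End K W), LC g' →
    (∀ e ∈ g, e * e = e → e.1 ≠ 0 → e.1 ≠ 1 → e ∈ g') → g ≤ g'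
  J0 : ∀ Z, Sp ψ Z → (Z, (0 : Module.End K W)) ∈ g → Z = 0

/-- traceless parts of second components -/
def hh (g : Submodule K (Module.End K V × Module.End K W)) : Submodule K (Module.End K W) where
  carrier := {Y | trace K W Y = 0 ∧ ∃ X ∈ g, ∃ t : K, X.2 = Y + t • 1}
  zero_mem' := ⟨map_zero _, 0, g.zero_mem, 0, by simp⟩
  add_mem' := by
    rintro a b ⟨ha, X, hX, t, ht⟩ ⟨hb, Y, hY, u, hu⟩
    refine ⟨by rw [map_add, ha, hb, add_zero], X + Y, g.add_mem hX hY, t + u, ?_⟩
    rw [Prod.snd_add, ht, hu]; module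
  smul_mem' := by
    rintro c a ⟨ha, X, hX, t, ht⟩
    refine ⟨by rw [map_smul, ha, smul_zero], c • X, g.smul_mem c hX, c * t, ?_⟩
    rw [Prod.smul_snd, ht]; module

/-- traceless parts of elements which vanish on `V` -/
def ii (g : Submodule K (Module.End K V × Module.End K W)) : Submodule K (Module.End K W) where
  carrier := {Y | trace K W Y = 0 ∧ ∃ t : K, ((0 : Module.End K V), Y + t • 1) ∈ g}
  zero_mem' := ⟨map_zero _, 0, by
    have := g.zero_mem
    convert this using 1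
    simp⟩
  add_mem' := by
    rintro a b ⟨ha, t, ht⟩ ⟨hb, u, hu⟩
    refine ⟨by rw [map_add, ha, hb, add_zero], t + u, ?_⟩
    have := g.add_mem ht hu
    convert this using 1
    rw [Prod.mk_add_mk, add_zero]
    congr 1
    module
  smul_mem' := by
    rintro c a ⟨ha, t, ht⟩
    refine ⟨by rw [map_smul, ha, smul_zero], c * t, ?_⟩
    have := g.smul_mem c ht
    convert this using 1
    rw [Prod.smul_mk, smul_zero]
    congr 1
    module

lemma comm_pair (X Y : Module.End K V × Module.End K W) :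
    X * Y - Y * X = (X.1 * Y.1 - Y.1 * X.1, X.2 * Y.2 - Y.2 * X.2) := rfl

lemma trace_comm0 (X Y : Module.End K W) : trace K W (X * Y - Y * X) = 0 := by
  rw [map_sub, trace_mul_comm, sub_self]

/-- the traceless part -/
lemma exists_traceless [Nontrivial W] (X : Module.End K W) :
    ∃ (Y : Module.End K W) (t : K), trace K W Y = 0 ∧ X = Y + t • 1 := by
  have h1 : (Module.finrank K W : K) ≠ 0 := Nat.cast_ne_zero.2 Module.finrank_pos.ne'
  refine ⟨X - (trace K W X / Module.finrank K W) • 1, trace K W X / Module.finrank K W, ?_, ?_⟩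
  · rw [map_sub, map_smul, trace_one, smul_eq_mul, div_mul_cancel₀ _ h1, sub_self]
  · rw [sub_add_cancel]

lemma double_zero {x : Module.End K W} (h : x + x = 0) : x = 0 := by
  rw [← two_smul K] at h
  rcases smul_eq_zero.1 h with h1 | h1
  · norm_num at h1
  · exact h1

lemma idem_pos {e x : Module.End K W} (he : e * e = e) (hx : e * x - x * e = x) :
    e * x = x ∧ x * e = 0 := by
  have h1 : e * x * e = 0 := by
    have h2 : e * (e * x - x * e) = e * x := by rw [hx]
    rw [mul_sub, ← mul_assoc, he, ← mul_assoc, sub_eq_self] at h2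
    exact h2
  have h3 : x * e = 0 := by
    have h2 : (e * x - x * e) * e = x * e := by rw [hx]
    rw [sub_mul, mul_assoc x e e, he, h1, zero_sub] at h2
    exact double_zero (by nth_rewrite 1 [← h2]; exact neg_add_cancel _)
  refine ⟨?_, h3⟩
  rw [h3, sub_zero] at hx
  exact hx

lemma idem_neg {e x : Module.End K W} (he : e * e = e) (hx : e * x - x * e = -x) :
    e * x = 0 ∧ x * e = x := by
  have h1 : e * x * e = 0 := by
    have h2 : (e * x - x * e) * e = -x * e := by rw [hx]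
    rw [sub_mul, mul_assoc x e e, he, neg_mul, sub_eq_add_neg] at h2
    exact add_eq_right.1 h2
  have h3 : e * x = 0 := by
    have h2 : e * (e * x - x * e) = e * (-x) := by rw [hx]
    rw [mul_sub, ← mul_assoc, he, ← mul_assoc, h1, sub_zero, mul_neg] at h2
    exact double_zero (by nth_rewrite 1 [h2]; exact neg_add_cancel _)
  refine ⟨h3, ?_⟩
  rw [h3, zero_sub] at hx
  exact neg_injective hx

lemma dot_self_ne {ψ : LinearMap.BilinForm K V} (hnd : ψ.Nondegenerate) {v : V} (hv : v ≠ 0) :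
    dot ψ v v ≠ 0 := by
  intro h0
  obtain ⟨w, hw⟩ := exists_ne_of_nd hnd hv
  have h1 := congrArg (fun f => f w) h0
  simp only [dot_apply, LinearMap.zero_apply] at h1
  rw [← two_smul K, smul_smul] at h1
  rcases smul_eq_zero.1 h1 with h2 | h2
  · exact mul_ne_zero two_ne_zero hw h2
  · exact hv h2

/-- the centre of the symplectic Lie algebra -/
lemma center_zero {ψ : LinearMap.BilinForm K V} (hnd : ψ.Nondegenerate) (halt : ∀ x, ψ x x = 0)
    {Z : Module.End K V} (hZ : Sp ψ Z) (h : ∀ Z', Sp ψ Z' → Z' * Z - Z * Z' = 0) : Z = 0 := by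
  ext u
  rw [LinearMap.zero_apply]
  by_contra hne
  have hu : u ≠ 0 := by
    rintro rfl
    exact hne (map_zero Z)
  have h1 := h _ (sp_dot halt u u)
  have h2 := comm_dot hZ u u
  rw [← neg_sub, h1, neg_zero, dot_symm ψ (Z u) u, ← two_smul K] at h2
  have h3 : dot ψ u (Z u) = 0 := by
    rcases smul_eq_zero.1 h2.symm with h4 | h4
    · norm_num at h4
    · exact h4
  obtain ⟨x, hx⟩ := exists_ne_of_nd hnd hu
  have h4 := congrArg (fun f => f x) h3
  simp only [dot_apply, LinearMap.zero_apply] at h4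
  -- `Z u = μ u`
  have h5 : Z u = (-(ψ (Z u) x) / ψ u x) • u := by
    have h6 : ψ u x • Z u = (-(ψ (Z u) x)) • u := by
      rw [neg_smul]; exact eq_neg_of_add_eq_zero_left h4
    rw [div_eq_inv_mul, mul_smul, ← h6, smul_smul, inv_mul_cancel₀ hx, one_smul]
  set μ := -(ψ (Z u) x) / ψ u x with hμ
  rw [h5, map_smul, LinearMap.smul_apply, smul_eq_mul, smul_smul, ← add_smul, mul_comm (ψ u x) μ,
    ← two_mul] at h4
  rcases smul_eq_zero.1 h4 with h6 | h6
  · have h7 : μ = 0 := by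
      rcases mul_eq_zero.1 h6 with h8 | h8
      · norm_num at h8
      · rcases mul_eq_zero.1 h8 with h9 | h9
        · exact h9
        · exact absurd h9 hx
    apply hne
    rw [h5, h7, zero_smul]
  · exact hu h6

namespace Pair

variable {ψ : LinearMap.BilinForm K V} {g : Submodule K (Module.End K V × Module.End K W)}
variable (P : Pair ψ g)
include P

lemma idata : IData (hh g) (ii g) := by
  have hW := P.ntv
  refine ⟨?_, ⟨P.ntv, ?_⟩, fun X hX => hX.1, ?_, ?_⟩
  · rintro a ⟨ha, X, hX, t, ht⟩ b ⟨hb, Y, hY, u, hu⟩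
    refine ⟨trace_comm0 _ _, X * Y - Y * X, P.closed _ hX _ hY, 0, ?_⟩
    rw [comm_pair, ht, hu, comm_scalar, zero_smul, add_zero]
  · intro U hU
    refine P.irr U fun X hX w hw => ?_
    obtain ⟨Y, t, h1, h2⟩ := exists_traceless (K := K) X.2
    have h3 := hU Y ⟨h1, X, hX, t, h2⟩ w hw
    rw [h2, LinearMap.add_apply]
    exact U.add_mem h3 (U.smul_mem t hw)
  · rintro a ⟨ha, t, ht⟩
    exact ⟨ha, _, ht, t, rfl⟩
  · rintro a ⟨ha, X, hX, t, ht⟩ b ⟨hb, u, hu⟩
    refine ⟨trace_comm0 _ _, 0, ?_⟩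
    have h1 := P.closed _ hX _ hu
    rw [comm_pair, ht, comm_scalar, mul_zero, zero_mul, sub_zero] at h1
    rw [zero_smul, add_zero]
    exact h1

/-- lifting of symplectic elements -/
lemma lift {Z : Module.End K V} (hZ : Sp ψ Z) :
    ∃ c ∈ orth (hh g) (ii g), ∃ t : K, (Z, c + t • (1 : Module.End K W)) ∈ g := by
  have hW := P.ntv
  obtain ⟨X, hX, rfl⟩ := P.sur Z hZ
  obtain ⟨Y, t, h1, h2⟩ := exists_traceless (K := K) X.2
  obtain ⟨y, ⟨hy, u, hu⟩, hc⟩ := P.idata.decomp (Y := Y) ⟨h1, X, hX, t, h2⟩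
  refine ⟨Y - y, hc, t - u, ?_⟩
  have h3 := g.sub_mem hX hu
  convert h3 using 1
  ext1
  · simp
  · simp only [Prod.snd_sub, h2]
    module

lemma uniq {Z c c' : Module.End K _} {t t' : K} (hc : c ∈ orth (hh g) (ii g))
    (hc' : c' ∈ orth (hh g) (ii g)) (h : ((Z : Module.End K V), c + t • 1) ∈ g)
    (h' : (Z, c' + t' • 1) ∈ g) : c = c' := by
  have h1 := g.sub_mem h h'
  have h2 := (orth (hh g) (ii g)).sub_mem hc hc'
  rw [← sub_eq_zero]
  refine P.idata.inf_bot ⟨h2.1.1, t - t', ?_⟩ h2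
  convert h1 using 1
  ext1
  · simp
  · simp only [Prod.snd_sub]
    module

/-- the homomorphism -/
lemma exists_rho : ∃ ρ : Module.End K V →ₗ[K] Module.End K W, ∀ Z, Sp ψ Z →
    ρ Z ∈ orth (hh g) (ii g) ∧ ∃ t : K, (Z, ρ Z + t • (1 : Module.End K W)) ∈ g := by
  choose c hc t ht using fun Z : spm ψ => P.lift Z.2
  let ρ₀ : spm ψ →ₗ[K] Module.End K W :=
    { toFun := c
      map_add' := by
        intro a b
        refine P.uniq (hc _) ((orth (hh g) (ii g)).add_mem (hc a) (hc b)) (ht (a + b))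
          (t' := t a + t b) ?_
        have := g.add_mem (ht a) (ht b)
        convert this using 1
        ext1
        · simp
        · simp only [Prod.snd_add]
          module
      map_smul' := by
        intro r a
        show c (r • a) = r • c a
        refine P.uniq (hc _) ((orth (hh g) (ii g)).smul_mem r (hc a)) (ht (r • a))
          (t' := r * t a) ?_
        have := g.smul_mem r (ht a)
        convert this using 1
        ext1
        · simp
        · simp only [Prod.smul_snd]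
          module }
  obtain ⟨ρ, hρ⟩ := LinearMap.exists_extend ρ₀
  refine ⟨ρ, fun Z hZ => ?_⟩
  have h1 : ρ Z = c ⟨Z, hZ⟩ := congrArg (fun f => f ⟨Z, hZ⟩) hρ
  rw [h1]
  exact ⟨hc _, _, ht ⟨Z, hZ⟩⟩

lemma sp_comm {X : Module.End K V × Module.End K W} (hX : X ∈ g) {Z : Module.End K V}
    (hZ : Sp ψ Z) : Sp ψ (X.1 * Z - Z * X.1) := by
  obtain ⟨c, hc⟩ := P.gsp X hX
  intro x y
  simp only [LinearMap.sub_apply, Module.End.mul_apply, map_sub]
  rw [hZ (X.1 x) y]
  have h1 := hc (Z x) y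
  have h2 := hc x (Z y)
  rw [hZ x (X.1 y), hZ x y] at h1
  linear_combination h1 + h2

section

variable {ρ : Module.End K V →ₗ[K] Module.End K W} (hρ : ∀ Z, Sp ψ Z →
    ρ Z ∈ orth (hh g) (ii g) ∧ ∃ t : K, (Z, ρ Z + t • (1 : Module.End K W)) ∈ g)
include hρ

lemma rho_equiv {X : Module.End K V × Module.End K W} (hX : X ∈ g) {Z : Module.End K V}
    (hZ : Sp ψ Z) : ρ (X.1 * Z - Z * X.1) = X.2 * ρ Z - ρ Z * X.2 := by
  have hW := P.ntv
  obtain ⟨h1, t, ht⟩ := hρ Z hZ
  obtain ⟨h3, u, hu⟩ := hρ _ (P.sp_comm hX hZ)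
  obtain ⟨Y, s, h4, h5⟩ := exists_traceless (K := K) X.2
  have h6 : X.2 * ρ Z - ρ Z * X.2 ∈ orth (hh g) (ii g) := by
    have h7 := P.idata.orth_ideal (X := Y) ⟨h4, X, hX, s, h5⟩ h1
    have h8 := comm_scalar Y (ρ Z) s 0
    rw [zero_smul, add_zero, ← h5] at h8
    rw [h8]; exact h7
  refine P.uniq h3 h6 hu (t' := 0) ?_
  have h7 := P.closed _ hX _ ht
  rw [comm_pair] at h7
  have h8 := comm_scalar X.2 (ρ Z) 0 t
  rw [zero_smul, add_zero] at h8
  simp only at h7
  rw [h8] at h7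
  rw [zero_smul, add_zero]
  exact h7

lemma rho_hom {X Z : Module.End K V} (hX : Sp ψ X) (hZ : Sp ψ Z) :
    ρ (X * Z - Z * X) = ρ X * ρ Z - ρ Z * ρ X := by
  obtain ⟨h1, t, ht⟩ := hρ X hX
  have h2 := P.rho_equiv hρ ht hZ
  have h8 := comm_scalar (ρ X) (ρ Z) t 0
  rw [zero_smul, add_zero] at h8
  simp only at h2
  rw [h2, h8]

lemma rho_inj {Z : Module.End K V} (hZ : Sp ψ Z) (h0 : ρ Z = 0) : Z = 0 := by
  obtain ⟨h1, t, ht⟩ := hρ Z hZ
  rw [h0, zero_add] at ht
  refine center_zero P.nd P.alt hZ fun Z' hZ' => ?_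
  obtain ⟨X, hX, rfl⟩ := P.sur Z' hZ'
  refine P.J0 _ (hZ'.comm hZ) ?_
  have h2 := P.closed _ hX _ ht
  rw [comm_pair] at h2
  have h3 : X.2 * (t • (1 : Module.End K W)) - t • (1 : Module.End K W) * X.2 = 0 := by
    rw [mul_smul_comm, smul_mul_assoc, mul_one, one_mul, sub_self]
  simp only at h2
  rw [h3] at h2
  exact h2

end

/-- the structure of the generators -/
lemma idem_sp [Nontrivial V] {e : Module.End K V × Module.End K W} (he : e ∈ g) (hee : e * e = e)
    (h0 : e.1 ≠ 0) (h1 : e.1 ≠ 1) : Sp ψ (e.1 - (2 : K)⁻¹ • 1) := by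
  have h2 : e.1 ∈ g.map (LinearMap.fst K (Module.End K V) (Module.End K W)) := ⟨e, he, rfl⟩
  have h3 := idem_mem (g := g.map (LinearMap.fst K (Module.End K V) (Module.End K W))) P.nd
    (by
      rintro _ ⟨X, hX, rfl⟩
      exact P.gsp X hX) h2 (by
      have := congrArg Prod.fst hee
      exact this)
  rcases h3 with h3 | h3 | h3
  · exact absurd h3 h0
  · exact absurd h3 h1
  · exact h3.1

section

variable {ρ : Module.End K V →ₗ[K] Module.End K W} (hρ : ∀ Z, Sp ψ Z →
    ρ Z ∈ orth (hh g) (ii g) ∧ ∃ t : K, (Z, ρ Z + t • (1 : Module.End K W)) ∈ g)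
  [Nontrivial V] {e : Module.End K V × Module.End K W} (he : e ∈ g) (hee : e * e = e)
  (h0 : e.1 ≠ 0) (h1 : e.1 ≠ 1)
include hρ he hee h0 h1

lemma act : Act ψ ρ e.1 := by
  have hs := P.idem_sp he hee h0 h1
  have ee1 : e.1 * e.1 = e.1 := congrArg Prod.fst hee
  have ee2 : e.2 * e.2 = e.2 := congrArg Prod.snd hee
  have hz1 : ∀ a b, e.1 a = a → e.1 b = b →
      e.2 * ρ (dot ψ a b) = ρ (dot ψ a b) ∧ ρ (dot ψ a b) * e.2 = 0 := by
    intro a b ha hb
    refine idem_pos ee2 ?_
    rw [← P.rho_equiv hρ he (sp_dot P.alt a b)]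
    congr 1
    have h2 := comm_dot hs a b
    have h3 := comm_scalar e.1 (dot ψ a b) (-(2 : K)⁻¹) 0
    rw [neg_smul, ← sub_eq_add_neg, zero_smul, add_zero] at h3
    rw [← h3, h2, LinearMap.sub_apply, LinearMap.sub_apply, ha, hb, LinearMap.smul_apply,
      LinearMap.smul_apply, Module.End.one_apply, Module.End.one_apply]
    have e1 : ∀ a : V, a - (2 : K)⁻¹ • a = (2 : K)⁻¹ • a := by
      intro a
      match_scalars
      norm_num
    rw [e1, e1, smul_dot, dot_smul]
    match_scalars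
    norm_num
  have hz2 : ∀ a b, e.1 a = 0 → e.1 b = 0 →
      e.2 * ρ (dot ψ a b) = 0 ∧ ρ (dot ψ a b) * e.2 = ρ (dot ψ a b) := by
    intro a b ha hb
    refine idem_neg ee2 ?_
    rw [← P.rho_equiv hρ he (sp_dot P.alt a b), ← map_neg]
    congr 1
    have h2 := comm_dot hs a b
    have h3 := comm_scalar e.1 (dot ψ a b) (-(2 : K)⁻¹) 0
    rw [neg_smul, ← sub_eq_add_neg, zero_smul, add_zero] at h3
    rw [← h3, h2, LinearMap.sub_apply, LinearMap.sub_apply, ha, hb, LinearMap.smul_apply,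
      LinearMap.smul_apply, Module.End.one_apply, Module.End.one_apply, zero_sub, zero_sub,
      ← neg_smul, ← neg_smul, smul_dot, dot_smul]
    match_scalars
    norm_num
  refine ⟨P.nd, P.alt, fun X Y hX hY => P.rho_hom hρ hX hY, fun x => ?_, ?_, ?_, ?_, ?_⟩
  · exact congrArg (fun f => f x) ee1
  · intro u v hu hv
    have h2 := hs u v
    simp only [LinearMap.sub_apply, LinearMap.smul_apply, Module.End.one_apply, hu, hv, map_sub,
      map_smul, smul_eq_mul] at h2
    linear_combination h2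
  · intro u v hu hv
    have h2 := hs u v
    simp only [LinearMap.sub_apply, LinearMap.smul_apply, Module.End.one_apply, hu, hv, map_sub,
      map_smul, smul_eq_mul, map_zero, LinearMap.zero_apply] at h2
    linear_combination -h2
  · intro a b c d ha hb hc hd
    rw [← (hz1 c d hc hd).1, ← mul_assoc, (hz1 a b ha hb).2, zero_mul]
  · intro a b c d ha hb hc hd
    rw [← (hz2 a b ha hb).2, mul_assoc, (hz2 c d hc hd).1, mul_zero]

end

end Pair

end Pool.Agent.Helper75.SS
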