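import Pool.Agent.Helper75.SS.Irr

/-!
# The irreducible case: the equivariant map
-/

namespace Pool.Agent.Helper75.SS

open LinearMap Pool.Agent.Helper66.OTR

set_option linter.unusedSectionVars false

variable {K V W : Type*} [Field K] [AddCommGroup V] [Module K V] [FiniteDimensional K V]
variable [AddCommGroup W] [Module K W] [FiniteDimensional K W]
variable [CharZero K] [IsAlgClosed K]

namespace Pair

variable {ψ : LinearMap.BilinForm K V} {g : Submodule K (Module.End K V × Module.End K W)}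
variable (P : Pair ψ g)
include P

lemma exists_gen [Nontrivial V] : ∃ e ∈ g, e * e = e ∧ e.1 ≠ 0 ∧ e.1 ≠ 1 := by
  by_contra hcon
  push Not at hcon
  have h1 : g ≤ ⊥ := by
    refine P.gen ⊥ ?_ ?_
    · intro X hX Y hY
      rw [Submodule.mem_bot] at hX hY
      rw [hX, hY]; simp
    · intro e he hee h0 h1
      exact absurd (hcon e he hee h0) h1
  obtain ⟨v, hv⟩ := exists_ne (0 : V)
  obtain ⟨X, hX, hX1⟩ := P.sur _ (sp_dot P.alt v v)
  have h2 := h1 hX
  rw [Submodule.mem_bot] at h2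
  rw [h2] at hX1
  exact dot_self_ne P.nd hv hX1.symm

section

variable {ρ : Module.End K V →ₗ[K] Module.End K W} (hρ : ∀ Z, Sp ψ Z →
    ρ Z ∈ orth (hh g) (ii g) ∧ ∃ t : K, (Z, ρ Z + t • (1 : Module.End K W)) ∈ g)
  [Nontrivial V] {e : Module.End K V × Module.End K W} (he : e ∈ g) (hee : e * e = e)
  (h0 : e.1 ≠ 0) (h1 : e.1 ≠ 1)
include hρ he hee h0 h1

lemma pos {a : V} (ha : e.1 a = a) :
    e.2 * ρ (dot ψ a a) = ρ (dot ψ a a) ∧ ρ (dot ψ a a) * e.2 = 0 := by
  have hs := P.idem_sp he hee h0 h1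
  have ee2 : e.2 * e.2 = e.2 := congrArg Prod.snd hee
  refine idem_pos ee2 ?_
  rw [← P.rho_equiv hρ he (sp_dot P.alt a a)]
  congr 1
  have h2 := comm_dot hs a a
  have h3 := comm_scalar e.1 (dot ψ a a) (-(2 : K)⁻¹) 0
  rw [neg_smul, ← sub_eq_add_neg, zero_smul, add_zero] at h3
  rw [← h3, h2, LinearMap.sub_apply, ha, LinearMap.smul_apply, Module.End.one_apply]
  have e1 : ∀ a : V, a - (2 : K)⁻¹ • a = (2 : K)⁻¹ • a := by
    intro a
    match_scalars
    norm_num
  rw [e1, smul_dot, dot_smul]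
  match_scalars
  norm_num

lemma neg {a : V} (ha : e.1 a = 0) :
    e.2 * ρ (dot ψ a a) = 0 ∧ ρ (dot ψ a a) * e.2 = ρ (dot ψ a a) := by
  have hs := P.idem_sp he hee h0 h1
  have ee2 : e.2 * e.2 = e.2 := congrArg Prod.snd hee
  refine idem_neg ee2 ?_
  rw [← P.rho_equiv hρ he (sp_dot P.alt a a), ← map_neg]
  congr 1
  have h2 := comm_dot hs a a
  have h3 := comm_scalar e.1 (dot ψ a a) (-(2 : K)⁻¹) 0
  rw [neg_smul, ← sub_eq_add_neg, zero_smul, add_zero] at h3
  rw [← h3, h2, LinearMap.sub_apply, ha, LinearMap.smul_apply, Module.End.one_apply, zero_sub,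
    ← neg_smul, smul_dot, dot_smul]
  match_scalars
  norm_num

omit hρ in
lemma exists_pos : ∃ v, e.1 v = v ∧ v ≠ 0 := by
  have ee1 : e.1 * e.1 = e.1 := congrArg Prod.fst hee
  by_contra hcon
  push Not at hcon
  apply h0
  ext v
  exact hcon (e.1 v) (congrArg (fun f => f v) ee1)

omit hρ in
lemma exists_neg : ∃ v, e.1 v = 0 ∧ v ≠ 0 := by
  have ee1 : e.1 * e.1 = e.1 := congrArg Prod.fst hee
  by_contra hcon
  push Not at hcon
  apply h1
  ext v
  have h2 := hcon (v - e.1 v) (by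
    rw [map_sub]
    have := congrArg (fun f => f v) ee1
    simp only [Module.End.mul_apply] at this
    rw [this, sub_self])
  rw [Module.End.one_apply]
  exact (sub_eq_zero.1 h2).symm

/-- the generators commute with the ideal -/
lemma ii_comm {y : Module.End K W} (hy : y ∈ ii g) : e.2 * y = y * e.2 := by
  have hW := P.ntv
  have ee2 : e.2 * e.2 = e.2 := congrArg Prod.snd hee
  obtain ⟨Y, s, h4, h5⟩ := exists_traceless (K := K) e.2
  have had : ∀ y ∈ ii g, e.2 * y - y * e.2 ∈ ii g := by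
    intro y hy
    have h7 := P.idata.ideal Y ⟨h4, e, he, s, h5⟩ y hy
    have h8 := comm_scalar Y y s 0
    rw [zero_smul, add_zero, ← h5] at h8
    rw [h8]; exact h7
  obtain ⟨v, hv, hv0⟩ := P.exists_pos he hee h0 h1
  obtain ⟨b, hb, hb0⟩ := P.exists_neg he hee h0 h1
  have hx := P.pos hρ he hee h0 h1 hv
  have hx' := P.neg hρ he hee h0 h1 hb
  have hxne : ρ (dot ψ v v) ≠ 0 := fun h => dot_self_ne P.nd hv0 (P.rho_inj hρ (sp_dot P.alt v v) h)
  have hxne' : ρ (dot ψ b b) ≠ 0 := fun h => dot_self_ne P.nd hb0 (P.rho_inj hρ (sp_dot P.alt b b) h)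
  set z₁ := e.2 * y - y * e.2 with hz₁
  have m1 : z₁ ∈ ii g := had y hy
  set z₂ := e.2 * z₁ - z₁ * e.2 with hz₂
  have m2 : z₂ ∈ ii g := had _ m1
  have e2 : z₂ = e.2 * y - (2 : ℕ) • (e.2 * y * e.2) + y * e.2 := by
    rw [hz₂, hz₁]
    have : e.2 * (e.2 * y - y * e.2) - (e.2 * y - y * e.2) * e.2 =
      (e.2 * e.2) * y - (2 : ℕ) • (e.2 * y * e.2) + y * (e.2 * e.2) := by noncomm_ring
    rw [this, ee2]
  have ea : z₁ + z₂ = (2 : ℕ) • (e.2 * y - e.2 * y * e.2) := by
    rw [e2, hz₁]; noncomm_ring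
  have eb : z₂ - z₁ = (2 : ℕ) • (y * e.2 - e.2 * y * e.2) := by
    rw [e2, hz₁]; noncomm_ring
  have ka : z₁ + z₂ = 0 := by
    have h2 : ρ (dot ψ v v) * (z₁ + z₂) = 0 := by
      rw [ea, mul_smul_comm, mul_sub, ← mul_assoc, ← mul_assoc, ← mul_assoc, hx.2]
      simp
    rcases P.idata.mul_ne (hρ _ (sp_dot P.alt v v)).1 ((ii g).add_mem m1 m2) h2 with h3 | h3
    · exact absurd h3 hxne
    · exact h3
  have kb : z₂ - z₁ = 0 := by
    have h2 : ρ (dot ψ b b) * (z₂ - z₁) = 0 := by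
      have h3 : ρ (dot ψ b b) * (e.2 * y * e.2) = ρ (dot ψ b b) * (y * e.2) := by
        rw [← mul_assoc, ← mul_assoc, hx'.2, mul_assoc]
      rw [eb, mul_smul_comm, mul_sub, h3, sub_self, smul_zero]
    rcases P.idata.mul_ne (hρ _ (sp_dot P.alt b b)).1 ((ii g).sub_mem m2 m1) h2 with h3 | h3
    · exact absurd h3 hxne'
    · exact h3
  have h9 : z₁ + z₁ = 0 := by
    have : z₁ + z₁ = (z₁ + z₂) - (z₂ - z₁) := by abel
    rw [this, ka, kb, sub_zero]
  have h10 := double_zero h9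
  rw [hz₁, sub_eq_zero] at h10
  exact h10

end

section

variable {ρ : Module.End K V →ₗ[K] Module.End K W} (hρ : ∀ Z, Sp ψ Z →
    ρ Z ∈ orth (hh g) (ii g) ∧ ∃ t : K, (Z, ρ Z + t • (1 : Module.End K W)) ∈ g)
  [Nontrivial V]
include hρ

lemma ii_bot {y : Module.End K W} (hy : y ∈ ii g) : y = 0 := by
  let g' : Submodule K (Module.End K V × Module.End K W) :=
    { carrier := {X | X.2 * y = y * X.2}
      zero_mem' := by simp
      add_mem' := by
        intro a b ha hb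
        show (a + b).2 * y = y * (a + b).2
        rw [Prod.snd_add, add_mul, mul_add, ha, hb]
      smul_mem' := by
        intro c a ha
        show (c • a).2 * y = y * (c • a).2
        rw [Prod.smul_snd, smul_mul_assoc, mul_smul_comm, ha] }
  have hg' : g ≤ g' := by
    refine P.gen g' ?_ ?_
    · intro X hX Y hY
      have hX' : X.2 * y = y * X.2 := hX
      have hY' : Y.2 * y = y * Y.2 := hY
      show (X * Y - Y * X).2 * y = y * (X * Y - Y * X).2
      rw [comm_pair]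
      simp only
      rw [sub_mul, mul_sub, mul_assoc, hY', ← mul_assoc, hX', mul_assoc, mul_assoc Y.2, hX',
        ← mul_assoc Y.2, hY', mul_assoc y Y.2]
    · intro e he hee h0 h1
      exact P.ii_comm hρ he hee h0 h1 hy
  refine schur_zero P.idata.irred (fun Y hY => ?_) hy.1
  obtain ⟨-, X, hX, t, ht⟩ := hY
  have h1 : X.2 * y = y * X.2 := hg' hX
  rw [ht, add_mul, mul_add, smul_mul_assoc, mul_smul_comm, one_mul, mul_one] at h1
  exact (add_right_cancel h1).symm

lemma gen_scalar {e : Module.End K V × Module.End K W} (he : e ∈ g) (hee : e * e = e)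
    (h0 : e.1 ≠ 0) (h1 : e.1 ≠ 1) : ∃ τ : K, e.2 = ρ (e.1 - (2 : K)⁻¹ • 1) + τ • 1 := by
  have hW := P.ntv
  have hs := P.idem_sp he hee h0 h1
  obtain ⟨h2, t, ht⟩ := hρ _ hs
  have hd := g.sub_mem he ht
  set d := e - (e.1 - (2 : K)⁻¹ • 1, ρ (e.1 - (2 : K)⁻¹ • 1) + t • (1 : Module.End K W)) with hd'
  have d1 : d.1 = (2 : K)⁻¹ • 1 := by
    rw [hd']
    simp
  have d2 : d.2 = e.2 - ρ (e.1 - (2 : K)⁻¹ • 1) - t • 1 := by
    rw [hd']
    simp only [Prod.snd_sub]
    abel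
  obtain ⟨Y, u, h3, h4⟩ := exists_traceless (K := K) d.2
  have h5 : Y = 0 := by
    refine schur_zero P.idata.irred (fun Z hZ => ?_) h3
    obtain ⟨-, X, hX, s, hs'⟩ := hZ
    rw [← sub_eq_zero]
    refine P.ii_bot hρ ⟨trace_comm0 _ _, 0, ?_⟩
    have h6 := P.closed _ hd _ hX
    rw [comm_pair, d1, h4, hs', comm_scalar] at h6
    have h7 : ((2 : K)⁻¹ • (1 : Module.End K V)) * X.1 - X.1 * ((2 : K)⁻¹ • 1) = 0 := by
      rw [mul_smul_comm, smul_mul_assoc, mul_one, one_mul, sub_self]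
    rw [h7] at h6
    rw [zero_smul, add_zero]
    exact h6
  refine ⟨t + u, ?_⟩
  rw [h5, zero_add, d2] at h4
  rw [sub_eq_iff_eq_add, sub_eq_iff_eq_add] at h4
  rw [h4]
  module

end

/-- **The irreducible case.** -/
theorem exists_hom [Nontrivial V] :
    ∃ φ : V →ₗ[K] W, φ ≠ 0 ∧ ∀ X ∈ g, ∀ v, X.2 (φ v) = φ (X.1 v) := by
  obtain ⟨ρ, hρ⟩ := P.exists_rho
  obtain ⟨e₀, he₀, hee₀, h00, h01⟩ := P.exists_gen
  have A := P.act hρ he₀ hee₀ h00 h01
  obtain ⟨v₀, hv, hv0⟩ := P.exists_pos he₀ hee₀ h00 h01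
  obtain ⟨f, hf, hfe⟩ := A.exists_equiv hv hv0
  have hne : ρ (dot ψ v₀ v₀) ≠ 0 := fun h =>
    dot_self_ne P.nd hv0 (P.rho_inj hρ (sp_dot P.alt v₀ v₀) h)
  -- `f` is injective
  have hinj : ∀ v, f v = 0 → v = 0 := by
    intro v hfv
    by_contra hv1
    obtain ⟨w, hw⟩ := exists_dual P.nd P.alt hv1
    have h1 := hfe _ (T_sp (ψ := ψ) P.alt v w v₀) v
    rw [T_apply hw, hfv, mul_zero] at h1
    apply hne
    rw [← hf, ← h1]
  -- the generators
  have hgen : ∀ e ∈ g, e * e = e → e.1 ≠ 0 → e.1 ≠ 1 → ∀ v, e.2 * f v = f (e.1 v) := by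
    intro e he hee h0 h1 v
    obtain ⟨τ, hτ⟩ := P.gen_scalar hρ he hee h0 h1
    have hs := P.idem_sp he hee h0 h1
    have ee2 : e.2 * e.2 = e.2 := congrArg Prod.snd hee
    have h2 : ∀ v, e.2 * f v = f (e.1 v) + (τ - (2 : K)⁻¹) • f v := by
      intro v
      rw [hτ, add_mul, hfe _ hs, LinearMap.sub_apply, LinearMap.smul_apply, Module.End.one_apply,
        smul_mul_assoc, one_mul, map_sub, map_smul]
      module
    obtain ⟨a, ha, ha0⟩ := P.exists_pos he hee h0 h1
    obtain ⟨b, hb, hb0⟩ := P.exists_neg he hee h0 h1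
    have hfa : f a ≠ 0 := fun h => ha0 (hinj a h)
    have hfb : f b ≠ 0 := fun h => hb0 (hinj b h)
    have h3 : e.2 * f a = (τ + (2 : K)⁻¹) • f a := by
      rw [h2 a, ha]
      match_scalars
      ring_nf
    have h4 : e.2 * f b = (τ - (2 : K)⁻¹) • f b := by
      rw [h2 b, hb, map_zero, zero_add]
    have h5 : (τ + (2 : K)⁻¹) * (τ + (2 : K)⁻¹) = τ + (2 : K)⁻¹ := by
      have h6 : e.2 * (e.2 * f a) = e.2 * f a := by rw [← mul_assoc, ee2]
      rw [h3, mul_smul_comm, h3, smul_smul] at h6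
      exact smul_left_injective K hfa h6
    have h6 : (τ - (2 : K)⁻¹) * (τ - (2 : K)⁻¹) = τ - (2 : K)⁻¹ := by
      have h6 : e.2 * (e.2 * f b) = e.2 * f b := by rw [← mul_assoc, ee2]
      rw [h4, mul_smul_comm, h4, smul_smul] at h6
      exact smul_left_injective K hfb h6
    have h7 : τ = (2 : K)⁻¹ := by
      linear_combination (2 : K)⁻¹ * (h5 - h6)
    rw [h2 v, h7, sub_self, zero_smul, add_zero]
  let g' : Submodule K (Module.End K V × Module.End K W) :=
    { carrier := {X | ∀ v, X.2 * f v = f (X.1 v)}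
      zero_mem' := by intro v; simp
      add_mem' := by
        intro a b ha hb v
        show (a + b).2 * f v = f ((a + b).1 v)
        rw [Prod.snd_add, Prod.fst_add, add_mul, LinearMap.add_apply, map_add, ha, hb]
      smul_mem' := by
        intro c a ha v
        show (c • a).2 * f v = f ((c • a).1 v)
        rw [Prod.smul_snd, Prod.smul_fst, smul_mul_assoc, LinearMap.smul_apply, map_smul, ha] }
  have hg' : g ≤ g' := by
    refine P.gen g' ?_ ?_
    · intro X hX Y hY v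
      have hX' : ∀ v, X.2 * f v = f (X.1 v) := hX
      have hY' : ∀ v, Y.2 * f v = f (Y.1 v) := hY
      show (X * Y - Y * X).2 * f v = f ((X * Y - Y * X).1 v)
      rw [comm_pair]
      simp only
      rw [sub_mul, mul_assoc, hY', hX', mul_assoc, hX', hY', LinearMap.sub_apply,
        Module.End.mul_apply, Module.End.mul_apply, map_sub]
    · intro e he hee h0 h1
      exact hgen e he hee h0 h1
  obtain ⟨w, hw⟩ : ∃ w, (f v₀) w ≠ 0 := by
    by_contra hcon
    push Not at hcon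
    apply hne
    rw [← hf]
    ext w
    exact hcon w
  refine ⟨(LinearMap.applyₗ w) ∘ₗ f, ?_, ?_⟩
  · intro h
    apply hw
    exact congrArg (fun q => q v₀) h
  · intro X hX v
    have h1 := hg' hX v
    exact congrArg (fun q => q w) h1

end Pair

end Pool.Agent.Helper75.SS
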