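import Pool.Agent.Helper75.SS.Heart

/-!
# Ideals of irreducible linear Lie algebras and their orthogonal complements
-/

namespace Pool.Agent.Helper75.SS

open LinearMap Pool.Agent.Helper66.OTR

set_option linter.unusedSectionVars false

variable {K W : Type*} [Field K] [AddCommGroup W] [Module K W] [FiniteDimensional K W]
variable [CharZero K] [IsAlgClosed K]

/-- the hypotheses on an irreducible Lie algebra `h` of trace zero endomorphisms and an ideal -/
structure IData (h I : Submodule K (Module.End K W)) : Prop where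
  closed : LieClosed h
  irred : Irred h
  tr : ∀ X ∈ h, trace K W X = 0
  le : I ≤ h
  ideal : ∀ X ∈ h, ∀ y ∈ I, X * y - y * X ∈ I

/-- Schur's lemma. -/
lemma schur {h : Submodule K (Module.End K W)} (hirr : Irred h) {c : Module.End K W}
    (hc : ∀ X ∈ h, c * X = X * c) : ∃ t : K, c = t • 1 := by
  have := hirr.1
  obtain ⟨t, ht⟩ := Module.End.exists_eigenvalue c
  refine ⟨t, ?_⟩
  have h1 : ∀ X ∈ h, ∀ w ∈ Module.End.eigenspace c t, X w ∈ Module.End.eigenspace c t := by
    intro X hX w hw
    rw [Module.End.mem_eigenspace_iff] at hw ⊢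
    have h2 := congrArg (fun f => f w) (hc X hX)
    simp only [Module.End.mul_apply] at h2
    rw [h2, hw, map_smul]
  rcases hirr.2 _ h1 with h2 | h2
  · exact absurd h2 ht
  · ext w
    have h3 : w ∈ Module.End.eigenspace c t := by rw [h2]; trivial
    rw [Module.End.mem_eigenspace_iff] at h3
    rw [h3]; rfl

lemma schur_zero {h : Submodule K (Module.End K W)} (hirr : Irred h) {c : Module.End K W}
    (hc : ∀ X ∈ h, c * X = X * c) (htr : trace K W c = 0) : c = 0 := by
  obtain ⟨t, rfl⟩ := schur hirr hc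
  have := hirr.1
  rw [map_smul, trace_one, smul_eq_mul] at htr
  have h1 : (Module.finrank K W : K) ≠ 0 := Nat.cast_ne_zero.2 Module.finrank_pos.ne'
  rcases mul_eq_zero.1 htr with h2 | h2
  · rw [h2, zero_smul]
  · exact absurd h2 h1

section
attribute [local instance 100] LieRing.ofAssociativeRing

open LieAlgebra LieModule

/-- abelian ideals vanish -/
lemma IData.abelian {h I : Submodule K (Module.End K W)} (D : IData h I)
    (hab : ∀ x ∈ I, ∀ y ∈ I, x * y - y * x = 0) : I = ⊥ := by
  set L := toLie h D.closed with hL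
  have : Nontrivial W := D.irred.1
  have i1 : LieModule.IsIrreducible K L W := by
    refine LieModule.IsIrreducible.mk fun N hN => ?_
    have h1 := D.irred.2 (N : Submodule K W) (fun X hX w hw => N.lie_mem (x := (⟨X, hX⟩ : L)) hw)
    rcases h1 with h1 | h1
    · exact absurd ((LieSubmodule.toSubmodule_eq_bot N).1 h1) hN
    · exact (LieSubmodule.toSubmodule_eq_top (N := N)).1 h1
  have i2 : LieModule.IsFaithful K L W := by
    rw [isFaithful_iff']
    intro x hx
    ext v
    exact hx v
  have i3 : HasTrivialRadical K L :=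
    hasTrivialRadical_of_isIrreducible_of_isFaithful K L W (fun x => D.tr _ x.2)
  let J : LieIdeal K L :=
    { carrier := {x | (x : Module.End K W) ∈ I}
      zero_mem' := I.zero_mem
      add_mem' := fun ha hb => I.add_mem ha hb
      smul_mem' := fun c _ ha => I.smul_mem c ha
      lie_mem := by
        intro x m hm
        exact D.ideal _ x.2 _ hm }
  have hJ : ∀ x, x ∈ J ↔ (x : Module.End K W) ∈ I := fun x => Iff.rfl
  have i4 : IsLieAbelian J := by
    refine ⟨fun x y => ?_⟩
    ext1
    ext1
    have := hab _ ((hJ _).1 x.2) _ ((hJ _).1 y.2)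
    exact this
  have i5 : IsSolvable J := inferInstance
  have h2 := HasTrivialRadical.eq_bot_of_isSolvable (R := K) J
  rw [eq_bot_iff]
  intro x hx
  have h3 : (⟨x, D.le hx⟩ : L) ∈ J := hx
  rw [h2, LieSubmodule.mem_bot] at h3
  exact congrArg Subtype.val h3

end

/-- the orthogonal complement -/
def orth (h I : Submodule K (Module.End K W)) : Submodule K (Module.End K W) where
  carrier := {c | c ∈ h ∧ ∀ y ∈ I, trace K W (c * y) = 0}
  zero_mem' := ⟨h.zero_mem, fun y _ => by rw [zero_mul, map_zero]⟩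
  add_mem' := fun ha hb => ⟨h.add_mem ha.1 hb.1, fun y hy => by
    rw [add_mul, map_add, ha.2 y hy, hb.2 y hy, add_zero]⟩
  smul_mem' := fun c a ha => ⟨h.smul_mem c ha.1, fun y hy => by
    rw [smul_mul_assoc, map_smul, ha.2 y hy, smul_zero]⟩

lemma mem_orth {h I : Submodule K (Module.End K W)} {c : Module.End K W} :
    c ∈ orth h I ↔ c ∈ h ∧ ∀ y ∈ I, trace K W (c * y) = 0 := Iff.rfl

lemma trace_rot (a b c : Module.End K W) :
    trace K W ((a * b - b * a) * c) = trace K W (a * (b * c - c * b)) := by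
  have h1 : trace K W (b * a * c) = trace K W (a * (c * b)) := by
    rw [mul_assoc, trace_mul_comm, mul_assoc]
  rw [sub_mul, mul_sub, map_sub, map_sub, h1, mul_assoc a b c]

namespace IData

variable {h I : Submodule K (Module.End K W)} (D : IData h I)
include D

lemma orth_ideal {X c : Module.End K W} (hX : X ∈ h) (hc : c ∈ orth h I) :
    X * c - c * X ∈ orth h I := by
  refine ⟨D.closed _ hX _ hc.1, fun y hy => ?_⟩
  have h1 := trace_rot c X y
  rw [hc.2 _ (D.ideal _ hX _ hy)] at h1
  rw [← neg_sub (c * X) (X * c), neg_mul, map_neg, h1, neg_zero]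

lemma inf_bot {x : Module.End K W} (hx : x ∈ I) (hx' : x ∈ orth h I) : x = 0 := by
  have D' : IData h (I ⊓ orth h I) :=
    { closed := D.closed
      irred := D.irred
      tr := D.tr
      le := fun y hy => D.le hy.1
      ideal := fun X hX y hy => ⟨D.ideal X hX y hy.1, D.orth_ideal hX hy.2⟩ }
  have h1 : I ⊓ orth h I = ⊥ := by
    refine D'.abelian ?_
    rintro x ⟨hx, hx'⟩ y ⟨hy, hy'⟩
    refine trace_nondeg D.closed D.irred D.tr (D.closed _ (D.le hx) _ (D.le hy)) fun Z hZ => ?_
    rw [trace_rot]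
    refine hx'.2 _ ?_
    rw [← neg_sub]
    exact I.neg_mem (D.ideal _ hZ _ hy)
  have h2 : x ∈ I ⊓ orth h I := ⟨hx, hx'⟩
  rw [h1, Submodule.mem_bot] at h2
  exact h2

lemma orth_comm {c y : Module.End K W} (hc : c ∈ orth h I) (hy : y ∈ I) : c * y = y * c := by
  rw [← sub_eq_zero]
  refine D.inf_bot (D.ideal _ hc.1 _ hy) ?_
  rw [← neg_sub]
  exact (orth h I).neg_mem (D.orth_ideal (D.le hy) hc)

lemma decomp {Y : Module.End K W} (hY : Y ∈ h) : ∃ y ∈ I, Y - y ∈ orth h I := by
  have hnd : (Setup.tf I).Nondegenerate := by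
    rw [LinearMap.BilinForm.nondegenerate_iff_ker_eq_bot]
    rw [LinearMap.ker_eq_bot']
    intro X hX
    ext1
    refine D.inf_bot X.2 ⟨D.le X.2, fun Y hY => ?_⟩
    exact congrArg (fun f => f ⟨Y, hY⟩) hX
  let φ : Module.Dual K I :=
    (trace K W) ∘ₗ (LinearMap.mulLeft K Y) ∘ₗ I.subtype
  obtain ⟨y, hy⟩ := ((Setup.tf I).toDual hnd).surjective φ
  refine ⟨y.1, y.2, h.sub_mem hY (D.le y.2), fun z hz => ?_⟩
  have h1 := congrArg (fun f => f ⟨z, hz⟩) hy
  simp only [LinearMap.BilinForm.toDual_def, Setup.tf_apply] at h1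
  rw [sub_mul, map_sub, h1, sub_eq_zero]
  rfl

/-- nonzero elements of the orthogonal complement and of the ideal have nonzero products -/
lemma mul_ne {a b : Module.End K W} (ha : a ∈ orth h I) (hb : b ∈ I) (hab : a * b = 0) :
    a = 0 ∨ b = 0 := by
  let B := Algebra.adjoin K (orth h I : Set (Module.End K W))
  have hcomm : ∀ y ∈ I, ∀ q ∈ B, y * q = q * y := by
    intro y hy q hq
    refine Algebra.adjoin_induction (fun w hw ↦ ?_) (fun r ↦ ?_) (fun a b _ _ ha hb ↦ ?_)
      (fun a b _ _ ha hb ↦ ?_) hq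
    · exact (D.orth_comm hw hy).symm
    · exact (Algebra.commutes r y).symm
    · rw [mul_add, add_mul, ha, hb]
    · rw [← mul_assoc, ha, mul_assoc, hb, mul_assoc]
  let S : Submodule K W :=
    { carrier := {w | ∀ q ∈ B, a (q w) = 0}
      zero_mem' := by intro q _; simp
      add_mem' := by intro u v hu hv q hq; rw [map_add, map_add, hu q hq, hv q hq, add_zero]
      smul_mem' := by intro c u hu q hq; rw [map_smul, map_smul, hu q hq, smul_zero] }
  have hS : ∀ X ∈ h, ∀ w ∈ S, X w ∈ S := by
    intro X hX w hw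
    obtain ⟨y, hy, hc⟩ := D.decomp hX
    have e : X w = y w + (X - y) w := by rw [LinearMap.sub_apply]; abel
    rw [e]
    refine S.add_mem ?_ ?_
    · intro q hq
      have h1 : a (q (y w)) = (a * (q * y)) w := rfl
      have h2 : a * (q * y) = y * (a * q) := by
        rw [← hcomm y hy q hq, ← mul_assoc, D.orth_comm ha hy, mul_assoc]
      rw [h1, h2]
      show y (a (q w)) = 0
      rw [hw q hq, map_zero]
    · intro q hq
      exact hw (q * (X - y)) (B.mul_mem hq (Algebra.subset_adjoin hc))
  rcases D.irred.2 S hS with h1 | h1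
  · right
    ext w
    have h2 : b w ∈ S := by
      intro q hq
      have h3 : a (q (b w)) = (a * (q * b)) w := rfl
      rw [h3, ← hcomm b hb q hq, ← mul_assoc, hab, zero_mul, LinearMap.zero_apply]
    rw [h1, Submodule.mem_bot] at h2
    rw [h2, LinearMap.zero_apply]
  · left
    ext w
    have h2 : w ∈ S := by rw [h1]; trivial
    exact h2 1 B.one_mem

end IData

end Pool.Agent.Helper75.SS
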